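import Pool.Agent.Y784.SW.Fil

/-! Ramification of the fixed fields: divisibility of valuations and the shift of `σ - 1`. -/

open scoped BigOperators Polynomial

set_option linter.unusedSectionVars false

noncomputable section

namespace Pool.Agent.Y784.SW

open Pool.Agent.W90.Swan

namespace Dat

variable {G E : Type*} [Group G] [Finite G] [Field E] [MulSemiringAction G E] {D : Dat G E}

lemma coeff_prod (F : Fil E) {ι : Type*} (s : Finset ι) (c : ι → E) (hc : ∀ i ∈ s, F.L 1 (c i)) :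
    ∀ i, F.L 0 ((∏ j ∈ s, (Polynomial.X - Polynomial.C (c j))).coeff i) ∧
      (i < s.card → F.L 1 ((∏ j ∈ s, (Polynomial.X - Polynomial.C (c j))).coeff i)) := by
  classical
  induction s using Finset.induction_on with
  | empty =>
    intro i
    simp only [Finset.prod_empty, Finset.card_empty, not_lt_zero, false_imp_iff, and_true]
    rw [Polynomial.coeff_one]
    split_ifs
    · exact F.one
    · exact F.zero 0
  | insert a s ha ih =>
    have ih' := ih fun i hi => hc i (Finset.mem_insert_of_mem hi)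
    have hca := hc a (Finset.mem_insert_self _ _)
    intro i
    rw [Finset.prod_insert ha, Finset.card_insert_of_notMem ha, sub_mul, Polynomial.coeff_sub,
      Polynomial.coeff_C_mul]
    have h1 : F.L 1 (c a * (∏ j ∈ s, (Polynomial.X - Polynomial.C (c j))).coeff i) :=
      Fil.mul hca (ih' i).1 (by omega)
    cases i with
    | zero =>
      rw [Polynomial.coeff_X_mul_zero]
      have h2 : F.L 1 (0 - c a * (∏ j ∈ s, (Polynomial.X - Polynomial.C (c j))).coeff 0) :=
        Fil.sub (F.zero 1) h1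
      exact ⟨F.mono h2 (by omega), fun _ => h2⟩
    | succ i =>
      rw [Polynomial.coeff_X_mul]
      refine ⟨Fil.sub (ih' i).1 (F.mono h1 (by omega)), fun hi => ?_⟩
      exact Fil.sub ((ih' i).2 (by omega)) h1

/-- the minimal polynomial of the uniformiser over the fixed field of `N` -/
def pol (D : Dat G E) (N : Subgroup G) : E[X] :=
  letI := Fintype.ofFinite N
  ∏ τ : N, (Polynomial.X - Polynomial.C ((τ : G) • D.π))

lemma pol_map (N : Subgroup G) (σ : G) : (pol D N).map (MulSemiringAction.toRingHom G E σ) =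
    letI := Fintype.ofFinite N
    ∏ τ : N, (Polynomial.X - Polynomial.C ((σ * τ : G) • D.π)) := by
  rw [pol, Polynomial.map_prod]
  refine Finset.prod_congr rfl fun τ _ => ?_
  simp [mul_smul]

lemma pol_map_self (N : Subgroup G) {σ : G} (hσ : σ ∈ N) :
    (pol D N).map (MulSemiringAction.toRingHom G E σ) = pol D N := by
  rw [pol_map, pol]
  let := Fintype.ofFinite N
  refine Fintype.prod_equiv (Equiv.mulLeft (⟨σ, hσ⟩ : N)) _ _ fun τ => ?_
  rw [Equiv.coe_mulLeft, Subgroup.coe_mul]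

lemma pol_coeff_mem (N : Subgroup G) (i : ℕ) : (pol D N).coeff i ∈ K (E := E) N := by
  intro g hg
  have h1 : g • (pol D N).coeff i = ((pol D N).map (MulSemiringAction.toRingHom G E g)).coeff i := by
    rw [Polynomial.coeff_map]
    rfl
  rw [h1, pol_map_self N hg]

lemma pol_eval (N : Subgroup G) : (pol D N).eval D.π = 0 := by
  rw [pol, Polynomial.eval_prod]
  let := Fintype.ofFinite N
  apply Finset.prod_eq_zero (Finset.mem_univ (1 : N))
  simp

lemma pol_map_eval (N : Subgroup G) (σ : G) :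
    ((pol D N).map (MulSemiringAction.toRingHom G E σ)).eval D.π =
    letI := Fintype.ofFinite N
    ∏ τ : N, (D.π - (σ * τ : G) • D.π) := by
  rw [pol_map, Polynomial.eval_prod]
  refine Finset.prod_congr rfl fun τ _ => ?_
  simp

/-- an element fixing the fixed field of `N` is in `N` -/
lemma mem_of_fix {N : Subgroup G} {σ : G} (h : ∀ x ∈ K (E := E) N, σ • x = x) (D : Dat G E) :
    σ ∈ N := by
  have h1 : (pol D N).map (MulSemiringAction.toRingHom G E σ) = pol D N := by
    ext i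
    rw [Polynomial.coeff_map]
    exact h _ (pol_coeff_mem N i)
  have h2 := pol_map_eval (D := D) N σ
  rw [h1, pol_eval] at h2
  obtain ⟨τ, -, hτ⟩ := Finset.prod_eq_zero_iff.mp h2.symm
  have h3 : (σ * τ : G) • D.π = D.π := (sub_eq_zero.mp hτ).symm
  have h4 := D.faith _ h3
  have : σ = (τ : G)⁻¹ := eq_inv_of_mul_eq_one_left h4
  rw [this]
  exact N.inv_mem τ.2

lemma exists_moved {N : Subgroup G} {σ : G} (h : σ ∉ N) (D : Dat G E) :
    ∃ x ∈ K (E := E) N, σ • x ≠ x := by
  by_contra hc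
  push Not at hc
  exact h (mem_of_fix hc D)

/-- valuations of elements of the fixed field are divisible by the order of the group -/
lemma dvd_aux (D : Dat G E) (m : ℕ) : ∀ N : Subgroup G, Nat.card N = 2 ^ m → ∀ x ∈ K (E := E) N,
    ∀ a : ℤ, D.V a x → (Nat.card N : ℤ) ∣ a := by
  induction m with
  | zero =>
    intro N hN x _ a _
    rw [hN]
    simp
  | succ m ih =>
    intro N hN x hx a ha
    obtain ⟨N', hN'⟩ := Sylow.exists_subgroup_card_pow_prime (G := N) 2 (n := m)
      (by rw [hN]; exact pow_dvd_pow 2 (by omega))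
    set M : Subgroup G := N'.map N.subtype with hM
    have hMN : M ≤ N := Subgroup.map_subtype_le N'
    have hMc : Nat.card M = 2 ^ m := by
      rw [hM, Subgroup.card_map_of_injective N.subtype_injective, hN']
    have hne : ∃ σ ∈ N, σ ∉ M := by
      by_contra hc
      push Not at hc
      have : N ≤ M := hc
      have := le_antisymm hMN this
      rw [this, hN] at hMc
      have := Nat.pow_right_injective (le_refl 2) hMc
      omega
    obtain ⟨σ, hσN, hσM⟩ := hne
    have hn : (Nat.card N : ℤ) = 2 * (Nat.card M : ℤ) := by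
      rw [hN, hMc]
      push_cast
      ring
    obtain ⟨b, hb⟩ := ih M hMc x (K_anti hMN hx) a ha
    by_contra hnd
    have hbodd : b % 2 = 1 := by
      by_contra hcb
      apply hnd
      have : b % 2 = 0 := by omega
      obtain ⟨c, hc⟩ := Int.dvd_of_emod_eq_zero this
      rw [hn, hb, hc]
      exact ⟨c, by ring⟩
    obtain ⟨c, hc⟩ : ∃ c, b = 2 * c + 1 := ⟨b / 2, by omega⟩
    obtain ⟨ϖ, hϖ, hϖV⟩ := exists_unif (D := D) N
    set y : E := x * ϖ ^ (-c) with hy
    have hyK : y ∈ K (E := E) N := (K N).mul_mem hx (zpow_mem hϖ _)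
    have hyV : D.V (Nat.card M) y := by
      refine Fil.V.mul ha (Fil.V.zpow hϖV (-c)) ?_
      rw [hn, hb, hc]
      ring
    apply hσM
    refine mem_of_fix (fun z hz => ?_) D
    have happ : ∀ (m : ℤ) (t : ℕ), D.L m z → ∃ w ∈ K (E := E) N, D.L (m + t) (z - w) := by
      intro m t hzm
      induction t with
      | zero => exact ⟨0, (K N).zero_mem, by simpa using hzm⟩
      | succ t iht =>
        obtain ⟨w, hw, hw'⟩ := iht
        rcases Fil.V_or hw' with h | h
        · have hzw : z - w ∈ K (E := E) M := (K M).sub_mem hz (K_anti hMN hw)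
          obtain ⟨j, hj⟩ := ih M hMc _ hzw _ h
          have hyj : D.V (m + t) (y ^ j) := by
            have := Fil.V.zpow hyV j
            rw [hj, mul_comm]
            exact this
          obtain ⟨c', hc', -, hc''⟩ := rep' hyj hw'
          refine ⟨w + c' * y ^ j, (K N).add_mem hw ((K N).mul_mem (K_anti le_top hc')
            (zpow_mem hyK _)), ?_⟩
          have e : z - (w + c' * y ^ j) = z - w - c' * y ^ j := by ring
          rw [e]
          push_cast
          rw [← add_assoc]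
          exact hc''
        · refine ⟨w, hw, ?_⟩
          push_cast
          rw [← add_assoc]
          exact h
    by_cases hz0 : z = 0
    · rw [hz0, smul_zero]
    obtain ⟨m, hm, -⟩ := Fil.exists_V (F := D.toFil) hz0
    rw [← sub_eq_zero]
    apply D.sep
    intro k
    obtain ⟨w, hw, hw'⟩ := happ m (k + m.natAbs) hm.1
    have e : σ • z - z = σ • (z - w) - (z - w) := by
      rw [smul_sub, hw σ hσN]
      ring
    rw [e]
    have h1 := Fil.sub (D.act σ hw') hw'
    have h2 := neg_abs_le m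
    exact D.mono h1 (by push_cast; omega)

lemma dvd {N : Subgroup G} {x : E} (hx : x ∈ K (E := E) N) {a : ℤ} (ha : D.V a x) :
    (Nat.card N : ℤ) ∣ a := by
  obtain ⟨m, hm⟩ := (IsPGroup.iff_card (p := 2)).mp (D.pg.to_subgroup N)
  exact dvd_aux D m N hm x hx a ha

/-- rounding up -/
lemma L_up {N : Subgroup G} {x : E} (hx : x ∈ K (E := E) N) {j : ℤ}
    (h : D.L (j * Nat.card N + 1) x) : D.L ((j + 1) * Nat.card N) x := by
  by_cases hx0 : x = 0
  · rw [hx0]; exact D.zero _
  obtain ⟨m, hm, -⟩ := Fil.exists_V (F := D.toFil) hx0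
  obtain ⟨b, hb⟩ := dvd hx hm
  have h1 := hm.le h
  have hpos : (0 : ℤ) < Nat.card N := by exact_mod_cast Nat.card_pos
  have h2 : j < b := by
    by_contra hc
    have : b ≤ j := by omega
    have : (Nat.card N : ℤ) * b ≤ (Nat.card N : ℤ) * j := mul_le_mul_of_nonneg_left this hpos.le
    rw [hb, mul_comm j] at h1
    omega
  apply hm.mono
  rw [hb, mul_comm]
  exact mul_le_mul_of_nonneg_left (by omega) hpos.le

section shift

variable {N : Subgroup G} {ϖ : E} (hϖ : ϖ ∈ K (E := E) N) (hϖV : D.V (Nat.card N) ϖ) {σ : G}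
  {s : ℤ} (hs : D.V (Nat.card N + s) (σ • ϖ - ϖ))

include hϖV hs

lemma one_le_s : 1 ≤ s := by
  have h1 := D.wild σ hϖV.1
  have := hs.le h1
  omega

lemma q_V : D.V s (σ • ϖ / ϖ - 1) := by
  have : σ • ϖ / ϖ - 1 = (σ • ϖ - ϖ) / ϖ := by field_simp [hϖV.ne]
  rw [this]
  exact Fil.V.div hs hϖV (by ring)

/-- `q = σϖ/ϖ`: powers of `q` -/
lemma q_pow (j : ℤ) : D.L s ((σ • ϖ / ϖ) ^ j - 1) ∧
    ((j % 2 = 0) → D.L (s + 1) ((σ • ϖ / ϖ) ^ j - 1)) ∧
    ((j % 2 = 1) → D.V s ((σ • ϖ / ϖ) ^ j - 1)) := by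
  set q := σ • ϖ / ϖ with hq
  have hs1 := one_le_s hϖV hs
  have hqV := q_V hϖV hs
  rw [← hq] at hqV
  have hq0 : D.V 0 q := Fil.V.div (V_act σ hϖV) hϖV (by ring)
  -- the group of units congruent to one
  have hmul : ∀ {t : ℤ} {x y : E}, 1 ≤ t → D.L t (x - 1) → D.L t (y - 1) → D.L t (x * y - 1) := by
    intro t x y ht hx hy
    have : x * y - 1 = (x - 1) * (y - 1) + (x - 1) + (y - 1) := by ring
    rw [this]
    exact D.add (D.add (Fil.mul hx hy (by omega)) hx) hy
  have hinv : ∀ {t : ℤ} {x : E}, 1 ≤ t → D.V 0 x → D.L t (x - 1) → D.L t (x⁻¹ - 1) := by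
    intro t x ht hx0 hx
    have : x⁻¹ - 1 = -((x - 1) * x⁻¹) := by field_simp [hx0.ne]; ring
    rw [this]
    exact D.neg (Fil.mul hx hx0.inv_L (by omega))
  have hnat : ∀ {t : ℤ} {x : E}, 1 ≤ t → D.V 0 x → D.L t (x - 1) → ∀ k : ℕ, D.L t (x ^ k - 1) := by
    intro t x ht hx0 hx k
    induction k with
    | zero => simpa using D.zero t
    | succ k ih =>
      rw [pow_succ]
      exact hmul ht ih hx
  have hint : ∀ {t : ℤ} {x : E}, 1 ≤ t → D.V 0 x → D.L t (x - 1) → ∀ k : ℤ, D.L t (x ^ k - 1) := by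
    intro t x ht hx0 hx k
    obtain ⟨m, rfl | rfl⟩ := k.eq_nat_or_neg
    · rw [zpow_natCast]
      exact hnat ht hx0 hx m
    · rw [zpow_neg, zpow_natCast]
      have h1 : D.V 0 (x ^ m) := by simpa using hx0.pow m
      exact hinv ht h1 (hnat ht hx0 hx m)
  have hq2 : D.L (s + 1) (q ^ (2 : ℤ) - 1) := by
    have : q ^ (2 : ℤ) - 1 = (q - 1) * ((q - 1) + 2) := by
      rw [zpow_ofNat]
      ring
    rw [this]
    exact Fil.mul hqV.1 (D.add (D.mono hqV.1 hs1) D.two) (by omega)
  have hq20 : D.V 0 (q ^ (2 : ℤ)) := by simpa using hq0.zpow 2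
  have heven : ∀ i : ℤ, D.L (s + 1) (q ^ (2 * i) - 1) := by
    intro i
    rw [zpow_mul]
    exact hint (by omega) hq20 hq2 i
  refine ⟨hint hs1 hq0 hqV.1 j, fun hj => ?_, fun hj => ?_⟩
  · have : j = 2 * (j / 2) := by omega
    rw [this]
    exact heven _
  · have : j = 2 * (j / 2) + 1 := by omega
    rw [this, zpow_add₀ hq0.ne, zpow_one]
    have e : q ^ (2 * (j / 2)) * q - 1 = (q - 1) + (q ^ (2 * (j / 2)) - 1) * q := by ring
    rw [e]
    exact hqV.add (Fil.mul (heven _) hq0.1 (by omega))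

lemma pow_shift (j : ℤ) : D.L (j * Nat.card N + s) (σ • ϖ ^ j - ϖ ^ j) ∧
    ((j % 2 = 0) → D.L (j * Nat.card N + s + 1) (σ • ϖ ^ j - ϖ ^ j)) ∧
    ((j % 2 = 1) → D.V (j * Nat.card N + s) (σ • ϖ ^ j - ϖ ^ j)) := by
  obtain ⟨h1, h2, h3⟩ := q_pow hϖV hs j
  have hz : σ • ϖ ^ j = (σ • ϖ) ^ j := by
    have := map_zpow₀ (MulSemiringAction.toRingHom G E σ) ϖ j
    exact this
  have e : σ • ϖ ^ j - ϖ ^ j = ϖ ^ j * ((σ • ϖ / ϖ) ^ j - 1) := by
    rw [hz, div_zpow]
    have : ϖ ^ j ≠ 0 := zpow_ne_zero _ hϖV.ne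
    field_simp
  have hj := hϖV.zpow j
  rw [e]
  refine ⟨Fil.mul hj.1 h1 le_rfl, fun h => Fil.mul hj.1 (h2 h) (by omega), fun h => ?_⟩
  exact hj.mul (h3 h) rfl

include hϖ

lemma shift_aux (t : ℕ) : ∀ (j : ℤ) (z : E), z ∈ K (E := E) N → D.L (j * Nat.card N) z →
    D.L (j * Nat.card N + min s t) (σ • z - z) := by
  have hpos : (0 : ℤ) < Nat.card N := by exact_mod_cast Nat.card_pos
  induction t with
  | zero =>
    intro j z hz hL
    have := one_le_s hϖV hs
    exact D.mono (D.wild σ hL) (by push_cast; omega)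
  | succ t ih =>
    intro j z hz hL
    have hϖj : D.V (j * Nat.card N) (ϖ ^ j) := hϖV.zpow j
    obtain ⟨c, hc, hc0, hc'⟩ := rep' hϖj hL
    have hr : z - c * ϖ ^ j ∈ K (E := E) N :=
      (K N).sub_mem hz ((K N).mul_mem (K_anti le_top hc) (zpow_mem hϖ _))
    have h1 := ih (j + 1) _ hr (L_up hr hc')
    have e : σ • z - z = c * (σ • ϖ ^ j - ϖ ^ j) + (σ • (z - c * ϖ ^ j) - (z - c * ϖ ^ j)) := by
      rw [smul_sub, smul_mul', hc σ trivial]
      ring
    rw [e]
    have h2 := (pow_shift hϖV hs j).1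
    apply D.add
    · exact Fil.mul hc0 h2 (by push_cast; omega)
    · apply D.mono h1
      have : (j + 1) * (Nat.card N : ℤ) = j * Nat.card N + Nat.card N := by ring
      rw [this]
      push_cast
      omega

lemma shift_mul {j : ℤ} {z : E} (hz : z ∈ K (E := E) N) (hL : D.L (j * Nat.card N) z) :
    D.L (j * Nat.card N + s) (σ • z - z) := by
  have h1 := shift_aux hϖ hϖV hs s.toNat j z hz hL
  have := one_le_s hϖV hs
  have e : min s (s.toNat : ℤ) = s := by omega
  rwa [e] at h1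

/-- the main shift estimate -/
lemma shift {a : ℤ} {z : E} (hz : z ∈ K (E := E) N) (hL : D.L a z) :
    D.L (a + s) (σ • z - z) := by
  by_cases hz0 : z = 0
  · rw [hz0, smul_zero, sub_zero]; exact D.zero _
  obtain ⟨m, hm, -⟩ := Fil.exists_V (F := D.toFil) hz0
  obtain ⟨b, hb⟩ := dvd hz hm
  have h1 := hm.le hL
  rw [mul_comm] at hb
  have h2 := shift_mul hϖ hϖV hs hz (j := b) (hb ▸ hm.1)
  exact D.mono h2 (by omega)

lemma shift_split {j : ℤ} {z : E} (hz : z ∈ K (E := E) N) (hV : D.V (j * Nat.card N) z) :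
    ∃ c, D.V 0 c ∧ D.L (j * Nat.card N + s + 1) (σ • z - z - c * (σ • ϖ ^ j - ϖ ^ j)) := by
  have hpos : (0 : ℤ) < Nat.card N := by exact_mod_cast Nat.card_pos
  have hϖj : D.V (j * Nat.card N) (ϖ ^ j) := hϖV.zpow j
  obtain ⟨c, hc, hc0, hc'⟩ := rep' hϖj hV.1
  have hcV := rep'_V hϖj hV hc0 hc'
  have hr : z - c * ϖ ^ j ∈ K (E := E) N :=
      (K N).sub_mem hz ((K N).mul_mem (K_anti le_top hc) (zpow_mem hϖ _))
  have h1 := shift_mul hϖ hϖV hs hr (L_up hr hc')
  refine ⟨c, hcV, ?_⟩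
  have e : σ • z - z - c * (σ • ϖ ^ j - ϖ ^ j) = (σ • (z - c * ϖ ^ j) - (z - c * ϖ ^ j)) := by
      rw [smul_sub, smul_mul', hc σ trivial]
      ring
  rw [e]
  apply D.mono h1
  have : (j + 1) * (Nat.card N : ℤ) = j * Nat.card N + Nat.card N := by ring
  rw [this]
  omega

lemma shift_odd {a : ℤ} {z : E} (hz : z ∈ K (E := E) N) (hV : D.V a z)
    (ha : ¬ (2 * (Nat.card N : ℤ)) ∣ a) : D.V (a + s) (σ • z - z) := by
  obtain ⟨b, hb⟩ := dvd hz hV
  rw [mul_comm] at hb
  subst hb
  have hb : b % 2 = 1 := by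
    by_contra hcb
    apply ha
    have : b % 2 = 0 := by omega
    obtain ⟨c, hc⟩ := Int.dvd_of_emod_eq_zero this
    rw [hc]
    exact ⟨c, by ring⟩
  obtain ⟨c, hc, h1⟩ := shift_split hϖ hϖV hs hz hV
  have h2 := (pow_shift hϖV hs b).2.2 hb
  have h3 : D.V (b * Nat.card N + s) (c * (σ • ϖ ^ b - ϖ ^ b)) := hc.mul h2 (by ring)
  have e : σ • z - z = c * (σ • ϖ ^ b - ϖ ^ b) + (σ • z - z - c * (σ • ϖ ^ b - ϖ ^ b)) := by ring
  rw [e]
  exact h3.add h1

lemma shift_even {a : ℤ} {z : E} (hz : z ∈ K (E := E) N) (hL : D.L a z)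
    (ha : (2 * (Nat.card N : ℤ)) ∣ a) : D.L (a + s + 1) (σ • z - z) := by
  rcases Fil.V_or hL with hV | hL'
  · obtain ⟨c', hc'⟩ := ha
    have e1 : a = (2 * c') * Nat.card N := by rw [hc']; ring
    subst e1
    obtain ⟨c, hc, h1⟩ := shift_split hϖ hϖV hs hz hV
    have h2 := (pow_shift hϖV hs (2 * c')).2.1 (by omega)
    have e : σ • z - z = c * (σ • ϖ ^ (2 * c') - ϖ ^ (2 * c')) +
      (σ • z - z - c * (σ • ϖ ^ (2 * c') - ϖ ^ (2 * c'))) := by ring
    rw [e]
    exact D.add (Fil.mul hc.1 h2 (by omega)) h1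
  · exact D.mono (shift hϖ hϖV hs hz hL') (by omega)

end shift

end Dat

end Pool.Agent.Y784.SW
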