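import Pool.Agent.Y784.SW.Arith2

/-! Quadratic steps: traces and norms. -/

open scoped BigOperators

set_option linter.unusedSectionVars false

noncomputable section

namespace Pool.Agent.Y784.SW

open Pool.Agent.W90.Swan

namespace Dat

variable {G E : Type*} [Group G] [Finite G] [Field E] [MulSemiringAction G E] {D : Dat G E}

lemma exists_elt (D : Dat G E) (N : Subgroup G) {a : ℤ} (ha : (Nat.card N : ℤ) ∣ a) :
    ∃ z ∈ K (E := E) N, D.V a z := by
  obtain ⟨ϖ, h1, h2⟩ := exists_unif (D := D) N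
  obtain ⟨b, rfl⟩ := ha
  refine ⟨ϖ ^ b, zpow_mem h1 _, ?_⟩
  rw [mul_comm]
  exact h2.zpow b

lemma nat_mem (n : ℕ) (N : Subgroup G) : (n : E) ∈ K (E := E) N := natCast_mem _ n

section quad

variable {N H : Subgroup G} {σ : G} {s : ℤ} (P : Pr N H σ) (S : Sh D N σ s)

include P S

lemma two_shift : ∃ y : E, D.V (Nat.card N + s) y ∧ y ∈ K (E := E) N ∧ σ • y - y = -(2 * y) := by
  obtain ⟨ϖ, h1, h2⟩ := exists_unif (D := D) N
  have hpos : (0 : ℤ) < Nat.card N := by exact_mod_cast Nat.card_pos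
  have hnd : ¬ (2 * (Nat.card N : ℤ)) ∣ Nat.card N := by
    intro h
    have := Int.le_of_dvd hpos h
    omega
  refine ⟨σ • ϖ - ϖ, S.odd h1 h2 hnd, (K N).sub_mem (P.act_mem h1) h1, ?_⟩
  rw [smul_sub, P.act_act h1]
  ring

lemma two_L : D.L s 2 := by
  obtain ⟨y, hy, hyK, h⟩ := two_shift P S
  have h1 := S.shift hyK hy.1
  rw [h] at h1
  have h2 := D.neg h1
  rw [neg_neg] at h2
  exact Fil.L_of_mul hy h2 (by omega)

lemma two_even (hs : (2 * (Nat.card N : ℤ)) ∣ s) : D.V s 2 := by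
  obtain ⟨y, hy, hyK, h⟩ := two_shift P S
  have hpos : (0 : ℤ) < Nat.card N := by exact_mod_cast Nat.card_pos
  have hnd : ¬ (2 * (Nat.card N : ℤ)) ∣ Nat.card N + s := by
    intro h
    have h1 := (dvd_add_left hs).mp h
    have := Int.le_of_dvd hpos h1
    omega
  have h1 := S.odd hyK hy hnd
  rw [h] at h1
  have h2 := h1.neg
  rw [neg_neg] at h2
  have h3 := h2.div hy (k := s) (by ring)
  have : (2 : E) * y / y = 2 := by field_simp [hy.ne]
  rwa [this] at h3

lemma two_odd (hs : ¬ (2 * (Nat.card N : ℤ)) ∣ s) : D.L (s + 1) 2 := by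
  rcases Fil.V_or (two_L P S) with h | h
  · exfalso
    apply hs
    have h1 := dvd (N := H) (by exact_mod_cast nat_mem (E := E) 2 H) h
    rw [P.card] at h1
    push_cast at h1
    exact h1
  · exact h

lemma tr_L {z : E} (hz : z ∈ K (E := E) N) {a : ℤ} (h : D.L a z) : D.L (a + s) (z + σ • z) := by
  have e : z + σ • z = 2 * z + (σ • z - z) := by ring
  rw [e]
  exact D.add (Fil.mul (two_L P S) h (by omega)) (S.shift hz h)

lemma tr_V {z : E} (hz : z ∈ K (E := E) N) {a : ℤ} (h : D.V a z)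
    (ha : (2 * (Nat.card N : ℤ)) ∣ a + s) : D.V (a + s) (z + σ • z) := by
  by_cases hs : (2 * (Nat.card N : ℤ)) ∣ s
  · have ha' : (2 * (Nat.card N : ℤ)) ∣ a := (dvd_add_left hs).mp ha
    have e : z + σ • z = 2 * z + (σ • z - z) := by ring
    rw [e]
    exact ((two_even P S hs).mul h (by ring)).add (S.even hz h.1 ha')
  · have ha' : ¬ (2 * (Nat.card N : ℤ)) ∣ a := fun h' => hs ((dvd_add_right h').mp ha)
    have e : z + σ • z = (σ • z - z) + 2 * z := by ring
    rw [e]
    exact (S.odd hz h ha').add (Fil.mul (two_odd P S hs) h.1 (by omega))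

lemma nm_V {z : E} {a b : ℤ} (h : D.V a z) (hb : b = 2 * a) : D.V b (z * σ • z) :=
  h.mul (V_act σ h) (by omega)

lemma nm_L {z : E} {a b : ℤ} (h : D.L a z) (hb : b ≤ 2 * a) : D.L b (z * σ • z) :=
  Fil.mul h (D.act σ h) (by omega)

/-- (Q1) the norm of a principal unit -/
lemma q1 {x : E} (hx : x ∈ K (E := E) N) {m : ℤ} (hm : s ≤ m) (h : D.L m (x - 1)) :
    D.L (m + s) (x * σ • x - 1) := by
  have e : x * σ • x - 1 = ((x - 1) + σ • (x - 1)) + (x - 1) * σ • (x - 1) := by
    rw [smul_sub, smul_one]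
    ring
  rw [e]
  exact D.add (tr_L P S ((K N).sub_mem hx (K N).one_mem) h) (nm_L P S h (by omega))

/-- one step of successive approximation -/
lemma q2_step {y : E} (hy : y ∈ K (E := E) H) {m : ℤ} (hm : 2 * s + 1 ≤ m) (h : D.L m (y - 1)) :
    ∃ x ∈ K (E := E) N, D.L (m - s) (x - 1) ∧ D.L (m + 1) (y - x * σ • x) := by
  have hs1 := S.s1
  rcases Fil.V_or h with hV | hL
  · have hyN : y - 1 ∈ K (E := E) H := (K H).sub_mem hy (K H).one_mem
    have hd := dvd hyN hV
    rw [P.card] at hd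
    push_cast at hd
    have hd' : (Nat.card N : ℤ) ∣ m - s :=
      dvd_sub ((dvd_mul_left _ _).trans hd) S.dvs
    obtain ⟨z, hz, hzV⟩ := exists_elt D N hd'
    have hα : D.V m (z + σ • z) := by
      have := tr_V P S hz hzV (by rw [sub_add_cancel]; exact hd)
      rwa [sub_add_cancel] at this
    obtain ⟨c, hc, hc0, hc'⟩ := rep' hα h
    have hcσ : σ • c = c := hc σ trivial
    refine ⟨1 + c * z, (K N).add_mem (K N).one_mem ((K N).mul_mem (K_anti le_top hc) hz), ?_, ?_⟩
    · have : 1 + c * z - 1 = c * z := by ring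
      rw [this]
      exact Fil.mul hc0 hzV.1 (by omega)
    · have e : y - (1 + c * z) * σ • (1 + c * z) =
          (y - 1 - c * (z + σ • z)) - (c * c) * (z * σ • z) := by
        rw [smul_add, smul_one, smul_mul', hcσ]
        ring
      rw [e]
      refine Fil.sub hc' (Fil.mul (Fil.mul hc0 hc0 (k := 0) (by omega))
        (nm_L P S (b := 2 * (m - s)) hzV.1 le_rfl) (by omega))
  · refine ⟨1, (K N).one_mem, by rw [sub_self]; exact D.zero _, ?_⟩
    rw [smul_one, mul_one]
    exact hL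

/-- (Q2) deep principal units are norms -/
lemma q2 {y : E} (hy : y ∈ K (E := E) H) {m : ℤ} (hm : 2 * s + 1 ≤ m) (h : D.L m (y - 1)) :
    ∃ x ∈ K (E := E) N, D.L (m - s) (x - 1) ∧ x * σ • x = y := by
  classical
  have hs1 := S.s1
  -- the sequence of approximations
  have step : ∀ (k : ℕ) (X : {X : E // X ∈ K (E := E) N ∧ D.V 0 X}),
      D.L (m + k) (y - X.1 * σ • X.1) →
      ∃ X' : {X : E // X ∈ K (E := E) N ∧ D.V 0 X},
        D.L (m + (k + 1 : ℕ)) (y - X'.1 * σ • X'.1) ∧ D.L (m + k - s) (X'.1 - X.1) := by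
    rintro k ⟨X, hX, hXV⟩ hL
    have hn : D.V 0 (X * σ • X) := nm_V P S hXV (by ring)
    have hnK : X * σ • X ∈ K (E := E) H := P.nm_mem hX
    have hy' : y / (X * σ • X) ∈ K (E := E) H := (K H).div_mem hy hnK
    have hL' : D.L (m + k) (y / (X * σ • X) - 1) := by
      have e : y / (X * σ • X) - 1 = (y - X * σ • X) / (X * σ • X) := by
        rw [sub_div, div_self hn.ne]
      rw [e]
      exact Fil.L_div hL hn (by omega)
    obtain ⟨x, hx, hx1, hx2⟩ := q2_step P S hy' (m := m + k) (by omega) hL'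
    have hx0 : D.V 0 x := by
      have e : x = 1 + (x - 1) := by ring
      rw [e]
      exact Fil.V_one.add (D.mono hx1 (by omega))
    refine ⟨⟨X * x, (K N).mul_mem hX hx, hXV.mul hx0 (by ring)⟩, ?_, ?_⟩
    · have e : y - X * x * σ • (X * x) = (X * σ • X) * (y / (X * σ • X) - x * σ • x) := by
        rw [mul_sub, mul_div_cancel₀ _ hn.ne, smul_mul']
        ring
      simp only
      rw [e]
      exact Fil.mul hn.1 hx2 (by push_cast; omega)
    · have e : X * x - X = X * (x - 1) := by ring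
      simp only
      rw [e]
      exact Fil.mul hXV.1 hx1 (by omega)
  have one_mem : (1 : E) ∈ K (E := E) N ∧ D.V 0 (1 : E) := ⟨(K N).one_mem, Fil.V_one⟩
  let T : ℕ → Type _ := fun k => {X : {X : E // X ∈ K (E := E) N ∧ D.V 0 X} //
    D.L (m + k) (y - X.1 * σ • X.1)}
  let seq : (k : ℕ) → T k := fun k => Nat.rec
    (⟨⟨1, one_mem⟩, by simpa using h⟩ : T 0)
    (fun k X => (⟨(step k X.1 X.2).choose, (step k X.1 X.2).choose_spec.1⟩ : T (k + 1))) k
  have hseq : ∀ k : ℕ, D.L (m + k - s) ((seq (k + 1)).1.1 - (seq k).1.1) := fun k =>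
    (step k (seq k).1 (seq k).2).choose_spec.2
  obtain ⟨X, hX⟩ := D.cpl (fun k => (seq k).1.1) (fun k => D.mono (hseq k) (by omega))
  have hclose : ∀ k : ℕ, D.L (m - s) ((seq k).1.1 - 1) := by
    intro k
    induction k with
    | zero =>
      show D.L (m - s) ((1 : E) - 1)
      rw [sub_self]
      exact D.zero _
    | succ k ih =>
      have e : (seq (k + 1)).1.1 - 1 = ((seq (k + 1)).1.1 - (seq k).1.1) + ((seq k).1.1 - 1) := by ring
      rw [e]
      exact D.add (D.mono (hseq k) (by omega)) ih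
  have hXK : X ∈ K (E := E) N := by
    intro g hg
    rw [← sub_eq_zero]
    apply D.sep
    intro k
    have e : g • X - X = g • (X - (seq k).1.1) - (X - (seq k).1.1) := by
      rw [smul_sub, (seq k).1.2.1 g hg]
      ring
    rw [e]
    exact Fil.sub (D.act g (hX k)) (hX k)
  have hX1 : D.L (m - s) (X - 1) := by
    have e : X - 1 = (X - (seq (m - s).toNat).1.1) + ((seq (m - s).toNat).1.1 - 1) := by ring
    rw [e]
    exact D.add (D.mono (hX _) (by omega)) (hclose _)
  have hX0 : D.L 0 X := by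
    have e : X = (X - 1) + 1 := by ring
    rw [e]
    exact D.add (D.mono hX1 (by omega)) D.one
  refine ⟨X, hXK, hX1, ?_⟩
  rw [← sub_eq_zero, ← neg_eq_zero, neg_sub]
  apply D.sep
  intro k
  set Y := (seq k).1.1 with hY
  have e : y - X * σ • X = (y - Y * σ • Y) - ((X - Y) * σ • X + Y * σ • (X - Y)) := by
    rw [smul_sub]
    ring
  rw [e]
  have h1 : D.L (m + k) (y - Y * σ • Y) := (seq k).2
  have h2 : D.L k (X - Y) := hX k
  have h3 : D.L 0 Y := (seq k).1.2.2.1
  refine Fil.sub (D.mono h1 (by omega)) (D.add (Fil.mul h2 (D.act σ hX0) (by omega))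
    (Fil.mul h3 (D.act σ h2) (by omega)))

end quad

end Dat

end Pool.Agent.Y784.SW
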