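import Pool.Agent.Y784.SW.Arith3

/-! The norm group of a quadratic step; automorphisms act trivially modulo norms. -/

open scoped BigOperators

set_option linter.unusedSectionVars false

noncomputable section

namespace Pool.Agent.Y784.SW

open Pool.Agent.W90.Swan

namespace Dat

variable {G E : Type*} [Group G] [Finite G] [Field E] [MulSemiringAction G E] {D : Dat G E}

lemma sqrep {c : E} (hc : D.L 0 c) :
    ∃ d ∈ K (E := E) (⊤ : Subgroup G), D.L 0 d ∧ D.L 1 (c - d * d) := by
  obtain ⟨w, hw, hw'⟩ := D.sq c hc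
  obtain ⟨d, hd, hd0, hd'⟩ := rep (D := D) hw
  refine ⟨d, hd, hd0, ?_⟩
  have e : c - d * d = (c - w ^ 2) + (w - d) * (w + d) := by ring
  rw [e]
  exact D.add hw' (Fil.mul hd' (D.add hw hd0) (by omega))

/-- norms from the fixed field of `N` -/
def IsN (N : Subgroup G) (σ : G) (a : E) : Prop := ∃ x ∈ K (E := E) N, x * σ • x = a

lemma IsN.mul {N : Subgroup G} {σ : G} {a b : E} (ha : IsN N σ a) (hb : IsN N σ b) :
    IsN N σ (a * b) := by
  obtain ⟨x, hx, rfl⟩ := ha
  obtain ⟨y, hy, rfl⟩ := hb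
  refine ⟨x * y, (K N).mul_mem hx hy, ?_⟩
  rw [smul_mul']
  ring

lemma IsN.inv {N : Subgroup G} {σ : G} {a : E} (ha : IsN N σ a) : IsN N σ a⁻¹ := by
  obtain ⟨x, hx, rfl⟩ := ha
  refine ⟨x⁻¹, (K N).inv_mem hx, ?_⟩
  rw [smul_inv'', mul_inv]

lemma L_sq {z : E} (h : D.L 1 (z * z)) (h0 : D.L 0 z) : D.L 1 z := by
  rcases Fil.V_or h0 with hV | hL
  · exfalso
    exact (hV.mul hV (k := 0) rfl).2 h
  · exact hL

section quad

variable {N H : Subgroup G} {σ : G} {s : ℤ} (P : Pr N H σ) (S : Sh D N σ s)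

include P S

lemma setup : ∃ y ∈ K (E := E) N, D.V s y ∧ D.V (2 * s) (y + σ • y) ∧ D.V (2 * s) (y * σ • y) := by
  obtain ⟨y, hy, hyV⟩ := exists_elt D N S.dvs
  refine ⟨y, hy, hyV, ?_, nm_V P S hyV rfl⟩
  have := tr_V P S hy hyV (by
    have := mul_dvd_mul_left 2 S.dvs
    rwa [two_mul s] at this)
  rwa [← two_mul] at this

/-- (Q3) a non-norm of depth `2 s` -/
lemma q3 : ∃ w ∈ K (E := E) H, D.L (2 * s) (w - 1) ∧ D.V 0 w ∧ ¬ IsN N σ w := by
  have hs1 := S.s1
  obtain ⟨y, hy, hyV, hα, hβ⟩ := setup P S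
  set α := y + σ • y with hαd
  set β := y * σ • y with hβd
  obtain ⟨a, ha0, ha⟩ := D.as1
  obtain ⟨c0, hc0, hc00, hc0'⟩ := rep (D := D) ha0
  have hu : D.V (2 * s) (α * α / β) := (hα.mul hα rfl).div hβ (by ring)
  have huK : α * α / β ∈ K (E := E) H :=
    (K H).div_mem ((K H).mul_mem (P.tr_mem hy) (P.tr_mem hy)) (P.nm_mem hy)
  have hw1 : D.L (2 * s) (1 + α * α / β * c0 - 1) := by
    have e : 1 + α * α / β * c0 - 1 = α * α / β * c0 := by ring
    rw [e]
    exact Fil.mul hu.1 hc00 (by omega)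
  have hw0 : D.V 0 (1 + α * α / β * c0) := by
    have e : 1 + α * α / β * c0 = 1 + (1 + α * α / β * c0 - 1) := by ring
    rw [e]
    exact Fil.V_one.add (D.mono hw1 (by omega))
  refine ⟨1 + α * α / β * c0, (K H).add_mem (K H).one_mem ((K H).mul_mem huK (K_anti le_top hc0)),
    hw1, hw0, ?_⟩
  rintro ⟨x, hx, hxw⟩
  have hx0 : x ≠ 0 := by
    rintro rfl
    rw [zero_mul] at hxw
    exact hw0.ne hxw.symm
  obtain ⟨m, hm, -⟩ := Fil.exists_V (F := D.toFil) hx0
  have hm0 : m = 0 := by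
    have h1 := nm_V P S hm rfl
    rw [hxw] at h1
    have := h1.unique hw0
    omega
  subst hm0
  set z := x - 1 with hz
  have hzK : z ∈ K (E := E) N := (K N).sub_mem hx (K N).one_mem
  have hz1 : D.L 1 z := by
    apply L_sq
    · have e : z * z = (x * σ • x - 1) - x * (σ • x - x) - 2 * z := by
        rw [hz]; ring
      rw [e, hxw]
      refine Fil.sub (Fil.sub (D.mono hw1 (by omega)) (Fil.mul hm.1 (D.wild σ hm.1) (by omega)))
        (Fil.mul D.two (Fil.sub hm.1 D.one) (by omega))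
    · exact Fil.sub hm.1 D.one
  have hwz : 1 + α * α / β * c0 - 1 = (z + σ • z) + z * σ • z := by
    rw [← hxw, hz, smul_sub, smul_one]
    ring
  have hzs : D.L s z := by
    by_contra hns
    have hz0 : z ≠ 0 := by
      intro h
      rw [h] at hns
      exact hns (D.zero _)
    obtain ⟨m, hmz, -⟩ := Fil.exists_V (F := D.toFil) hz0
    have hms : m < s := by
      by_contra h
      exact hns (hmz.mono (by omega))
    have h1 : D.V (2 * m) (z * σ • z + (z + σ • z)) :=
      (nm_V P S hmz rfl).add (D.mono (tr_L P S hzK hmz.1) (by omega))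
    rw [add_comm, ← hwz] at h1
    have := h1.le hw1
    omega
  obtain ⟨c, hc, hc1, hc2⟩ := rep' hyV hzs
  have hcσ : σ • c = c := hc σ trivial
  set r := z - c * y with hr
  have hrK : r ∈ K (E := E) N := (K N).sub_mem hzK ((K N).mul_mem (K_anti le_top hc) hy)
  have hzr : z = c * y + r := by rw [hr]; ring
  have hmain : D.L (2 * s + 1) (α * α / β * c0 - c * α - c * c * β) := by
    have e : α * α / β * c0 - c * α - c * c * β =
        (r + σ • r) + c * (y * σ • r) + c * (r * σ • y) + r * σ • r := by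
      have h1 : α * α / β * c0 = (z + σ • z) + z * σ • z := by rw [← hwz]; ring
      rw [h1, hzr, hαd, hβd, smul_add, smul_mul', hcσ]
      ring
    rw [e]
    refine D.add (D.add (D.add ?_ ?_) ?_) ?_
    · exact D.mono (tr_L P S hrK hc2) (by omega)
    · exact Fil.mul hc1 (Fil.mul hyV.1 (D.act σ hc2) (k := 2 * s + 1) (by omega)) (by omega)
    · exact Fil.mul hc1 (Fil.mul hc2 (D.act σ hyV.1) (k := 2 * s + 1) (by omega)) (by omega)
    · exact Fil.mul hc2 (D.act σ hc2) (by omega)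
  apply ha (c * β / α)
  · exact Fil.L_div (Fil.mul hc1 hβ.1 (k := 2 * s) (by omega)) hα (by omega)
  · have h1 := Fil.L_div hmain hu (k := 1) (by omega)
    have e : (c * β / α) ^ 2 + c * β / α - a =
        -((α * α / β * c0 - c * α - c * c * β) / (α * α / β)) - (a - c0) := by
      have := hα.ne
      have := hβ.ne
      field_simp
      ring
    rw [e]
    exact Fil.sub (D.neg h1) hc0'

/-- reduction of an element of the base field to depth `2 s` modulo norms -/
lemma red_aux (t : ℕ) : ∀ (a : E) (m : ℤ), a ∈ K (E := E) H → 1 ≤ m → 2 * s - m ≤ t →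
    D.L m (a - 1) → ∃ x ∈ K (E := E) N, D.V 0 x ∧ D.L (2 * s) (a / (x * σ • x) - 1) := by
  have hs1 := S.s1
  induction t with
  | zero =>
    intro a m ha hm ht hL
    refine ⟨1, (K N).one_mem, Fil.V_one, ?_⟩
    rw [smul_one, mul_one, div_one]
    exact D.mono hL (by push_cast at ht; omega)
  | succ t ih =>
    intro a m ha hm ht hL
    by_cases hms : 2 * s ≤ m
    · refine ⟨1, (K N).one_mem, Fil.V_one, ?_⟩
      rw [smul_one, mul_one, div_one]
      exact D.mono hL hms
    rcases Fil.V_or hL with hV | hL'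
    · have hd := dvd ((K H).sub_mem ha (K H).one_mem) hV
      rw [P.card] at hd
      push_cast at hd
      obtain ⟨j, hj⟩ := hd
      obtain ⟨z, hz, hzV⟩ := exists_elt D N (a := Nat.card N * j) (dvd_mul_right _ _)
      have hmj : m = 2 * (Nat.card N * j) := by rw [hj]; ring
      set i := (Nat.card N : ℤ) * j with hi
      have hnz : D.V m (z * σ • z) := nm_V P S hzV hmj
      obtain ⟨c, hc, hc0, hc'⟩ := rep' hnz hL
      obtain ⟨d, hd, hd0, hd'⟩ := sqrep (D := D) hc0
      have hdσ : σ • d = d := hd σ trivial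
      set x := 1 + d * z with hx
      have hxK : x ∈ K (E := E) N :=
        (K N).add_mem (K N).one_mem ((K N).mul_mem (K_anti le_top hd) hz)
      have hxV : D.V 0 x := Fil.V_one.add (Fil.mul hd0 hzV.1 (by omega))
      have hnx : D.V 0 (x * σ • x) := nm_V P S hxV (by ring)
      have h1 : D.L (m + 1) (a - x * σ • x) := by
        have e : a - x * σ • x = (a - 1 - c * (z * σ • z)) + (c - d * d) * (z * σ • z)
            - d * (z + σ • z) := by
          rw [hx, smul_add, smul_one, smul_mul', hdσ]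
          ring
        rw [e]
        refine Fil.sub (D.add hc' (Fil.mul hd' hnz.1 (by omega))) ?_
        exact Fil.mul hd0 (tr_L P S hz hzV.1) (by omega)
      have h2 : D.L (m + 1) (a / (x * σ • x) - 1) := by
        have e : a / (x * σ • x) - 1 = (a - x * σ • x) / (x * σ • x) := by
          rw [sub_div, div_self hnx.ne]
        rw [e]
        exact Fil.L_div h1 hnx (by omega)
      obtain ⟨x', hx', hx'V, hx'L⟩ := ih (a / (x * σ • x)) (m + 1)
        ((K H).div_mem ha (P.nm_mem hxK)) (by omega) (by push_cast at ht; omega) h2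
      refine ⟨x * x', (K N).mul_mem hxK hx', hxV.mul hx'V (by ring), ?_⟩
      have e : a / (x * x' * σ • (x * x')) = a / (x * σ • x) / (x' * σ • x') := by
        rw [smul_mul', div_div]
        congr 1
        ring
      rw [e]
      exact hx'L
    · exact ih a (m + 1) ha (by omega) (by push_cast at ht; omega) hL'

lemma red {a : E} (ha : a ∈ K (E := E) H) (ha0 : a ≠ 0) :
    ∃ b ∈ K (E := E) H, D.L (2 * s) (b - 1) ∧ ∃ c, IsN N σ c ∧ a = c * b := by
  have hs1 := S.s1
  obtain ⟨m, hm, -⟩ := Fil.exists_V (F := D.toFil) ha0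
  have hd := dvd ha hm
  rw [P.card] at hd
  push_cast at hd
  obtain ⟨j, hj⟩ := hd
  obtain ⟨z, hz, hzV⟩ := exists_elt D N (a := Nat.card N * j) (dvd_mul_right _ _)
  have hmj : m = 2 * (Nat.card N * j) := by rw [hj]; ring
  have hnz : D.V m (z * σ • z) := nm_V P S hzV hmj
  obtain ⟨c, hc, hc0, hc'⟩ := rep' hnz hm.1
  have hcV := rep'_V hnz hm hc0 hc'
  obtain ⟨d, hd, hd0, hd'⟩ := sqrep (D := D) hc0
  have hdσ : σ • d = d := hd σ trivial
  have hddV : D.V 0 (d * d) := Fil.V_of_sub hcV hd'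
  have hdV : D.V 0 d := by
    rcases Fil.V_or hd0 with h | h
    · exact h
    · exfalso
      exact hddV.2 (Fil.mul h h (by omega))
  set x := d * z with hx
  have hxK : x ∈ K (E := E) N := (K N).mul_mem (K_anti le_top hd) hz
  have hnx : D.V m (x * σ • x) := by
    have e : x * σ • x = (d * d) * (z * σ • z) := by
      rw [hx, smul_mul', hdσ]; ring
    rw [e]
    exact hddV.mul hnz (by ring)
  have h1 : D.L (m + 1) (a - x * σ • x) := by
    have e : a - x * σ • x = (a - c * (z * σ • z)) + (c - d * d) * (z * σ • z) := by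
      rw [hx, smul_mul', hdσ]; ring
    rw [e]
    exact D.add hc' (Fil.mul hd' hnz.1 (by omega))
  have h2 : D.L 1 (a / (x * σ • x) - 1) := by
    have e : a / (x * σ • x) - 1 = (a - x * σ • x) / (x * σ • x) := by
      rw [sub_div, div_self hnx.ne]
    rw [e]
    exact Fil.L_div h1 hnx (by omega)
  have hK := (K H).div_mem ha (P.nm_mem hxK)
  obtain ⟨x', hx', hx'V, hx'L⟩ := red_aux P S (2 * s - 1).toNat (a / (x * σ • x)) 1
    hK (by omega) (by omega) h2
  have hn' : D.V 0 (x' * σ • x') := nm_V P S hx'V (by ring)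
  refine ⟨a / (x * σ • x) / (x' * σ • x'), (K H).div_mem hK (P.nm_mem hx'), hx'L,
    (x * σ • x) * (x' * σ • x'), IsN.mul ⟨x, hxK, rfl⟩ ⟨x', hx', rfl⟩, ?_⟩
  rw [mul_assoc, mul_div_cancel₀ _ hn'.ne, mul_div_cancel₀ _ hnx.ne]

/-- (Q4') automorphisms act trivially modulo norms -/
lemma q5 {τ : G} (hτ : τ * σ = σ * τ) (hN : ∀ x ∈ K (E := E) N, τ • x ∈ K (E := E) N)
    (hN' : ∀ x ∈ K (E := E) N, τ⁻¹ • x ∈ K (E := E) N)
    (hH : ∀ x ∈ K (E := E) H, τ • x ∈ K (E := E) H) {b : E} (hb : b ∈ K (E := E) H)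
    (hb0 : b ≠ 0) : IsN N σ (τ • b / b) := by
  have hs1 := S.s1
  have hcomm : ∀ x : E, τ • σ • x = σ • τ • x := fun x => by
    rw [← mul_smul, hτ, mul_smul]
  obtain ⟨b', hb', hbL, c, hc, rfl⟩ := red P S hb hb0
  have hc0 : c ≠ 0 := left_ne_zero_of_mul hb0
  have hb'0 : b' ≠ 0 := right_ne_zero_of_mul hb0
  have h1 : IsN N σ (τ • c / c) := by
    obtain ⟨x, hx, rfl⟩ := hc
    have hx0 : x ≠ 0 := left_ne_zero_of_mul hc0
    refine ⟨τ • x / x, (K N).div_mem (hN x hx) hx, ?_⟩
    rw [div_eq_mul_inv (τ • x), smul_mul', smul_inv'', smul_mul', ← hcomm]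
    have hσx : σ • x ≠ 0 := right_ne_zero_of_mul hc0
    field_simp
  have hb'V : D.V 0 b' := by
    have e : b' = 1 + (b' - 1) := by ring
    rw [e]
    exact Fil.V_one.add (D.mono hbL (by omega))
  have h2 : D.L (2 * s + 1) (τ • b' / b' - 1) := by
    have e : τ • b' / b' - 1 = (τ • (b' - 1) - (b' - 1)) / b' := by
      rw [smul_sub, smul_one]
      field_simp
      ring
    rw [e]
    exact Fil.L_div (D.wild τ hbL) hb'V (by omega)
  obtain ⟨x1, hx1, -, hx1'⟩ := q2 P S ((K H).div_mem (hH b' hb') hb') le_rfl h2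
  have h3 : IsN N σ (τ • b' / b') := ⟨x1, hx1, hx1'⟩
  have h4 := h1.mul h3
  have e : τ • c / c * (τ • b' / b') = τ • (c * b') / (c * b') := by
    rw [smul_mul']
    field_simp
  rwa [e] at h4

end quad

end Dat

end Pool.Agent.Y784.SW
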