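import Pool.Agent.Y784.SW.JumpChar
import Pool.Agent.W90.Swan.Mono
import Pool.Agent.W90.Swan.Chain

/-! The main inequality for representations of the wild group. -/

open scoped BigOperators
open Representation

set_option linter.unusedSectionVars false

noncomputable section

namespace Pool.Agent.Y784.SW

open Pool.Agent.W90.Swan

variable {G E : Type*} [Group G] [Finite G] [Field E] [MulSemiringAction G E] (D : Dat G E)

lemma int_ineq {M : ℕ} (hM : Dat.Ram D M = ⊥) (H : Subgroup G) (χ : H →* ℂˣ) (ν : ℕ → ℤ)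
    (h1 : ∀ i, ν i = 0 ∨ ν i = 1 ∨ ν i = -1)
    (h2 : ∀ i, (∀ h : H, (h : G) ∈ Dat.Ram D i → χ h ^ 2 = 1) → ν i = 1)
    (h3 : ∀ i, Dat.Ram D i ≤ H → ν i ≠ -1) :
    0 ≤ open Classical in ∑ i ∈ Finset.Icc 1 M,
      if (∀ h : H, (h : G) ∈ Dat.Ram D i → χ h = 1) then 0
      else (Nat.card (H ⊓ Dat.Ram D i : Subgroup G) : ℤ) * ν i := by
  classical
  set T0 : ℤ := ∑ i ∈ Finset.Icc 1 M, if (∀ h : H, (h : G) ∈ Dat.Ram D i → χ h = 1)
      then 0 else (Nat.card (H ⊓ Dat.Ram D i : Subgroup G) : ℤ) with hT0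
  set T1 : ℤ := ∑ i ∈ Finset.Icc 1 M, if (∀ h : H, (h : G) ∈ Dat.Ram D i → χ h ^ 2 = 1)
      then 0 else (Nat.card (H ⊓ Dat.Ram D i : Subgroup G) : ℤ) with hT1
  set Sn : ℤ := ∑ i ∈ Finset.Icc 1 M, if ν i = -1
      then (Nat.card (H ⊓ Dat.Ram D i : Subgroup G) : ℤ) else 0 with hSn
  have hA : T0 - T1 - Sn ≤ ∑ i ∈ Finset.Icc 1 M,
      if (∀ h : H, (h : G) ∈ Dat.Ram D i → χ h = 1) then 0
      else (Nat.card (H ⊓ Dat.Ram D i : Subgroup G) : ℤ) * ν i := by
    rw [hT0, hT1, hSn, ← Finset.sum_sub_distrib, ← Finset.sum_sub_distrib]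
    refine Finset.sum_le_sum fun i _ => ?_
    have hc : (0 : ℤ) ≤ (Nat.card (H ⊓ Dat.Ram D i : Subgroup G) : ℤ) := by positivity
    generalize (Nat.card (H ⊓ Dat.Ram D i : Subgroup G) : ℤ) = c at hc
    by_cases hx1 : ∀ h : H, (h : G) ∈ Dat.Ram D i → χ h = 1
    · have hx2 : ∀ h : H, (h : G) ∈ Dat.Ram D i → χ h ^ 2 = 1 := by
        intro h hh
        rw [hx1 h hh, one_pow]
      have hν := h2 i hx2
      rw [if_pos hx1, if_pos hx2, if_neg (by rw [hν]; norm_num), if_pos hx1]
      simp
    · rw [if_neg hx1, if_neg hx1]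
      by_cases hx2 : ∀ h : H, (h : G) ∈ Dat.Ram D i → χ h ^ 2 = 1
      · have hν := h2 i hx2
        rw [if_pos hx2, if_neg (by rw [hν]; norm_num), hν]
        simp
      · rw [if_neg hx2]
        rcases h1 i with h | h | h
        · rw [h]; simp
        · rw [h]; simpa using hc
        · rw [h]; simp
  have hB : Sn ≤ T1 := by
    rw [hT1, hSn]
    refine Finset.sum_le_sum fun i _ => ?_
    have hc : (0 : ℤ) ≤ (Nat.card (H ⊓ Dat.Ram D i : Subgroup G) : ℤ) := by positivity
    by_cases hx2 : ∀ h : H, (h : G) ∈ Dat.Ram D i → χ h ^ 2 = 1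
    · have hν := h2 i hx2
      rw [if_pos hx2, if_neg (by rw [hν]; norm_num)]
    · rw [if_neg hx2]
      split_ifs
      · exact le_rfl
      · exact hc
  have hC : Sn ≤ T0 - T1 := by
    by_cases hex : ∃ i ∈ Finset.Icc 1 M, ν i = -1
    · obtain ⟨j, hj, hjmax⟩ := Finset.exists_max_image
        ((Finset.Icc 1 M).filter (fun i => ν i = -1)) id (by
          obtain ⟨i, hi, hi'⟩ := hex
          exact ⟨i, Finset.mem_filter.mpr ⟨hi, hi'⟩⟩)
      have hjν : ν j = -1 := (Finset.mem_filter.mp hj).2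
      obtain ⟨K, σ, P, hK⟩ := exists_over D.pg H (Dat.Ram D j) (Dat.Ram_normal j)
        (fun h => h3 j h hjν)
      have hlam := Dat.two_L P (P.sh D)
      have hle : Sn ≤ Dat.J D K - Dat.J D H := by
        rw [Dat.lam_eq hM, hSn]
        refine Finset.sum_le_sum fun i hi => ?_
        obtain ⟨c1, c2⟩ := Dat.cnt P (Dat.Ram D i)
        split_ifs with h
        · have hij : i ≤ j := hjmax i (Finset.mem_filter.mpr ⟨hi, h⟩)
          have h4 : ¬ K ⊓ Dat.Ram D i ≤ H := fun h5 =>
            hK ((inf_le_inf_left K (Dat.Ram_anti hij)).trans h5)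
          rw [c2 h4]
          push_cast
          linarith
        · by_cases h4 : K ⊓ Dat.Ram D i ≤ H
          · rw [c1 h4, sub_self]
          · rw [c2 h4]
            push_cast
            linarith [Nat.cast_nonneg (α := ℤ) (Nat.card (H ⊓ Dat.Ram D i : Subgroup G))]
      have hj := Dat.jump_char hM H χ hlam T0 T1 hT0 hT1
      have hmin : Sn ≤ min T1 (Dat.J D K - Dat.J D H) := le_min hB hle
      linarith
    · have h0 : Sn = 0 := by
        rw [hSn]
        apply Finset.sum_eq_zero
        intro i hi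
        rw [if_neg]
        intro h
        exact hex ⟨i, hi, h⟩
      have h4 : T1 ≤ T0 := by
        rw [hT0, hT1]
        refine Finset.sum_le_sum fun i _ => ?_
        have hc : (0 : ℤ) ≤ (Nat.card (H ⊓ Dat.Ram D i : Subgroup G) : ℤ) := by positivity
        by_cases hx1 : ∀ h : H, (h : G) ∈ Dat.Ram D i → χ h = 1
        · have hx2 : ∀ h : H, (h : G) ∈ Dat.Ram D i → χ h ^ 2 = 1 := by
            intro h hh
            rw [hx1 h hh, one_pow]
          rw [if_pos hx1, if_pos hx2]
        · rw [if_neg hx1]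
          split_ifs
          · exact hc
          · exact le_rfl
      linarith
  linarith

variable {V : Type*} [AddCommGroup V] [Module ℂ V] [FiniteDimensional ℂ V]

/-- the alternating sum of characters over the ramification groups -/
def FF (M : ℕ) (ρ : Representation ℂ G V) : ℂ :=
  ∑ i ∈ Finset.Icc 1 M, ((∑ᶠ n : Dat.Ram D i, ρ.character ((n : G) ^ 2)) -
    ∑ᶠ n : Dat.Ram D i, ρ.character (n : G))

theorem FF_irr {M : ℕ} (hM : Dat.Ram D M = ⊥) (ρ : Representation ℂ G V) (hρ : Irr ρ ⊤ ⊤) :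
    ∃ r : ℝ, 0 ≤ r ∧ FF D M ρ = r := by
  classical
  obtain ⟨N, r, hN0, hNm, hNn, hNi, hNr, hNR⟩ := exists_chain D.pg (Dat.Ram D) Dat.Ram_anti
    Dat.Ram_normal M hM
  obtain ⟨H, χ, ν, hν⟩ := mono N hN0 hNm hNn hNi r hNr hρ (Dat.Ram D) hNR
  have hint := int_ineq D hM H χ ν (fun i => (hν i).1) (fun i => (hν i).2.2.1)
    (fun i => (hν i).2.2.2.1)
  refine ⟨(Module.finrank ℂ V : ℝ) * ((∑ i ∈ Finset.Icc 1 M,
      if (∀ h : H, (h : G) ∈ Dat.Ram D i → χ h = 1) then 0
      else (Nat.card (H ⊓ Dat.Ram D i : Subgroup G) : ℤ) * ν i : ℤ) : ℝ),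
    mul_nonneg (by positivity) (by exact_mod_cast hint), ?_⟩
  rw [FF]
  push_cast
  rw [Finset.mul_sum]
  refine Finset.sum_congr rfl fun i _ => ?_
  obtain ⟨-, hs, -, -, ht, hnt⟩ := hν i
  have := Fintype.ofFinite (Dat.Ram D i)
  by_cases hx : ∀ h : H, (h : G) ∈ Dat.Ram D i → χ h = 1
  · rw [if_pos hx]
    have h1 := ht hx
    have h2 : ∀ n : Dat.Ram D i, ρ.character ((n : G) ^ 2) = ρ.character (n : G) := by
      intro n
      rw [Representation.character, Representation.character, map_pow, h1 n n.2, one_pow]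
    simp only [h2]
    simp
  · rw [if_neg hx, hs]
    have h1 := hnt hx
    have h2 : ∑ᶠ n : Dat.Ram D i, ρ.character (n : G) = 0 := by
      rw [finsum_eq_sum_of_fintype]
      have : Invertible (Nat.card (Dat.Ram D i) : ℂ) := invertibleOfNonzero cardG_ne
      have h3 := card_inv_mul_sum_char_eq_finrank (ρ.comp (Dat.Ram D i).subtype)
      have h4 : invariants (ρ.comp (Dat.Ram D i).subtype) = ⊥ := by
        rw [eq_bot_iff]
        intro x hx
        rw [Submodule.mem_bot]
        exact h1 x (fun n hn => hx ⟨n, hn⟩)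
      rw [h4, finrank_bot, Nat.cast_zero] at h3
      have h5 := (mul_eq_zero.mp h3).resolve_left (inv_ne_zero cardG_ne)
      exact h5
    rw [h2, sub_zero]
    push_cast
    ring

lemma char_compl (ρ : Representation ℂ G V) (U U' : Submodule ℂ V) (hU : Stb ρ ⊤ U)
    (hU' : Stb ρ ⊤ U') (hc : IsCompl U U') (g : G) :
    ρ.character g = LinearMap.trace ℂ U ((ρ g).restrict (hU g trivial)) +
      LinearMap.trace ℂ U' ((ρ g).restrict (hU' g trivial)) := by
  have h1 : (U.prodEquivOfIsCompl U' hc).conj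
      (LinearMap.prodMap ((ρ g).restrict (hU g trivial)) ((ρ g).restrict (hU' g trivial))) = ρ g := by
    apply LinearMap.ext
    intro x
    obtain ⟨⟨a, b⟩, rfl⟩ := (U.prodEquivOfIsCompl U' hc).surjective x
    rw [LinearEquiv.conj_apply_apply, LinearEquiv.symm_apply_apply]
    simp [Submodule.coe_prodEquivOfIsCompl']
  have h2 := congrArg (LinearMap.trace ℂ V) h1
  rw [LinearMap.trace_conj', LinearMap.trace_prodMap'] at h2
  exact h2.symm

/-- the main inequality for the wild group -/
theorem FF_nonneg {M : ℕ} (hM : Dat.Ram D M = ⊥) (d : ℕ) : ∀ (V : Type _) [AddCommGroup V]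
    [Module ℂ V] [FiniteDimensional ℂ V] (ρ : Representation ℂ G V), Module.finrank ℂ V = d →
    ∃ r : ℝ, 0 ≤ r ∧ FF D M ρ = r := by
  induction d using Nat.strong_induction_on with
  | _ d ih =>
    intro V _ _ _ ρ hd
    by_cases hV : (⊤ : Submodule ℂ V) = ⊥
    · refine ⟨0, le_rfl, ?_⟩
      have hs : Subsingleton V := by
        have := (Submodule.subsingleton_iff ℂ (M := V)).mp (subsingleton_of_bot_eq_top hV.symm)
        exact this
      have h1 : ∀ g, ρ.character g = 0 := by
        intro g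
        rw [Representation.character, Subsingleton.elim (ρ g) 0, map_zero]
      simp [FF, h1]
    · obtain ⟨U, -, hU⟩ := exists_irr (ρ := ρ) ⊤ ⊤ hV (fun _ _ _ _ => trivial)
      obtain ⟨P, hP1, hP2, hP3⟩ := exists_proj (ρ := ρ) ⊤ U hU.stb
      by_cases hUt : U = ⊤
      · subst hUt
        exact FF_irr D hM ρ hU
      · have hPp : LinearMap.IsProj U P := ⟨hP2, hP1⟩
        have hcomp : IsCompl U (LinearMap.ker P) := hPp.isCompl
        have hK : Stb ρ ⊤ (LinearMap.ker P) := by
          intro n hn w hw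
          show P (ρ n w) = 0
          rw [hP3 n trivial, LinearMap.mem_ker.mp hw, map_zero]
        have hsum := Submodule.finrank_add_eq_of_isCompl hcomp
        have hUpos : 0 < Module.finrank ℂ U := by
          rw [Module.finrank_pos_iff]
          exact Submodule.nontrivial_iff_ne_bot.mpr hU.ne
        have hUlt : Module.finrank ℂ U < d := by
          rw [← hd]
          exact Submodule.finrank_lt hUt
        let ρ1 : Representation ℂ G U :=
          { toFun := fun g => (ρ g).restrict (hU.stb g trivial)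
            map_one' := by ext; simp
            map_mul' := fun x y => by ext; simp }
        let ρ2 : Representation ℂ G (LinearMap.ker P) :=
          { toFun := fun g => (ρ g).restrict (hK g trivial)
            map_one' := by ext; simp
            map_mul' := fun x y => by ext; simp }
        obtain ⟨r1, hr1, hr1'⟩ := ih _ hUlt U ρ1 rfl
        obtain ⟨r2, hr2, hr2'⟩ := ih (Module.finrank ℂ (LinearMap.ker P)) (by omega) _ ρ2 rfl
        refine ⟨r1 + r2, add_nonneg hr1 hr2, ?_⟩
        have hch : ∀ g, ρ.character g = ρ1.character g + ρ2.character g := fun g =>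
          char_compl ρ U _ hU.stb hK hcomp g
        push_cast
        rw [← hr1', ← hr2', FF, FF, FF, ← Finset.sum_add_distrib]
        refine Finset.sum_congr rfl fun i _ => ?_
        have := Fintype.ofFinite (Dat.Ram D i)
        simp only [finsum_eq_sum_of_fintype, hch, Finset.sum_add_distrib]
        ring

end Pool.Agent.Y784.SW
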