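import Pool.Agent.W90.Swan.Fil

/-! The abstract data of a complete discretely valued field of residue characteristic two with
perfect residue field on which `x ^ 2 + x` is not surjective, with a wild action of a finite
`2`-group.  The development follows `Pool.Agent.W90.Swan.Fil`; the finiteness of the residue field
is not used. -/

open scoped BigOperators

set_option linter.unusedSectionVars false

noncomputable section

namespace Pool.Agent.Y784.SW

open Pool.Agent.W90.Swan

/-- the data of a complete discretely valued field of residue characteristic two with perfect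
residue field on which `x ^ 2 + x` is not surjective, with a wild action of a finite `2`-group -/
structure Dat (G E : Type*) [Group G] [Finite G] [Field E] [MulSemiringAction G E]
    extends Fil E where
  π : E
  hπ : L 1 π ∧ ¬ L 2 π
  act : ∀ (g : G) {n : ℤ} {x : E}, L n x → L n (g • x)
  wild : ∀ (g : G) {n : ℤ} {x : E}, L n x → L (n + 1) (g • x - x)
  fai : ∀ g : G, (∀ x : E, g • x = x) → g = 1
  two : L 1 2
  pg : IsPGroup 2 G
  sq : ∀ u, L 0 u → ∃ w, L 0 w ∧ L 1 (u - w ^ 2)
  as1 : ∃ a, L 0 a ∧ ∀ x, L 0 x → ¬ L 1 (x ^ 2 + x - a)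
  cpl : ∀ f : ℕ → E, (∀ n : ℕ, L n (f (n + 1) - f n)) → ∃ x, ∀ n : ℕ, L n (x - f n)

namespace Dat

variable {G E : Type*} [Group G] [Finite G] [Field E] [MulSemiringAction G E] (D : Dat G E)

/-- the valuation predicates of the data -/
abbrev V (n : ℤ) (x : E) : Prop := D.toFil.V n x

lemma Vπ : D.V 1 D.π := D.hπ

variable {D}

lemma V_act {n : ℤ} {x : E} (g : G) (h : D.V n x) : D.V n (g • x) := by
  refine ⟨D.act g h.1, fun h' => h.2 ?_⟩
  have := D.act g⁻¹ h'
  rwa [inv_smul_smul] at this

/-- the fixed field of a subgroup -/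
def K (N : Subgroup G) : Subfield E where
  carrier := {x | ∀ g ∈ N, g • x = x}
  mul_mem' := by
    intro a b ha hb g hg
    rw [smul_mul', ha g hg, hb g hg]
  one_mem' := fun g _ => smul_one g
  add_mem' := by
    intro a b ha hb g hg
    rw [smul_add, ha g hg, hb g hg]
  zero_mem' := fun g _ => smul_zero g
  neg_mem' := by
    intro a ha g hg
    rw [smul_neg, ha g hg]
  inv_mem' := by
    intro a ha g hg
    rw [smul_inv'', ha g hg]

lemma mem_K {N : Subgroup G} {x : E} : x ∈ K (E := E) N ↔ ∀ g ∈ N, g • x = x := Iff.rfl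

lemma K_anti {N H : Subgroup G} (h : N ≤ H) {x : E} (hx : x ∈ K (E := E) H) :
    x ∈ K (E := E) N := fun g hg => hx g (h hg)

lemma smul_finprod {ι : Type*} (g : G) (s : Finset ι) (f : ι → E) :
    g • ∏ i ∈ s, f i = ∏ i ∈ s, g • f i := by
  exact map_prod (MulSemiringAction.toRingHom G E g) f s

/-- a residue class has a representative fixed by the whole group -/
lemma rep {u : E} (hu : D.L 0 u) : ∃ c ∈ K (E := E) (⊤ : Subgroup G), D.L 0 c ∧ D.L 1 (u - c) := by
  have hit : ∀ (k : ℕ) (u : E), D.L 0 u → ∃ w, D.L 0 w ∧ D.L 1 (u - w ^ (2 ^ k)) := by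
    intro k
    induction k with
    | zero =>
      intro u hu
      exact ⟨u, hu, by simpa using D.zero 1⟩
    | succ k ih =>
      intro u hu
      obtain ⟨w1, hw1, hw1'⟩ := D.sq u hu
      obtain ⟨w2, hw2, hw2'⟩ := ih w1 hw1
      refine ⟨w2, hw2, ?_⟩
      have : u - w2 ^ (2 ^ (k + 1)) = (u - w1 ^ 2) + (w1 - w2 ^ (2 ^ k)) * (w1 + w2 ^ (2 ^ k)) := by
        rw [pow_succ, pow_mul]
        ring
      rw [this]
      exact D.add hw1' (Fil.mul hw2' (D.add hw1 (Fil.L_pow hw2 _)) (by omega))
  obtain ⟨k, hk⟩ := (IsPGroup.iff_card (p := 2)).mp D.pg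
  obtain ⟨w, hw, hw'⟩ := hit k u hu
  have := Fintype.ofFinite G
  refine ⟨∏ g : G, g • w, ?_, ?_, ?_⟩
  · intro h _
    rw [smul_finprod]
    refine Fintype.prod_equiv (Equiv.mulLeft h) _ _ fun g => ?_
    rw [Equiv.coe_mulLeft, mul_smul]
  · have : ∀ s : Finset G, D.L 0 (∏ g ∈ s, g • w) := by
      classical
      intro s
      induction s using Finset.induction_on with
      | empty => simpa using D.one
      | insert a s ha ih =>
        rw [Finset.prod_insert ha]
        exact Fil.mul (D.act a hw) ih (by omega)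
    exact this _
  · have h1 := Fil.L_prod_sub (F := D.toFil) Finset.univ (fun g : G => g • w) w hw
      (fun g _ => D.mono (D.wild g hw) (by omega))
    rw [Finset.card_univ, ← Nat.card_eq_fintype_card, hk] at h1
    have h2 : u - ∏ g : G, g • w = (u - w ^ 2 ^ k) - (∏ g : G, g • w - w ^ 2 ^ k) := by ring
    rw [h2]
    exact Fil.sub hw' h1

/-- scaled representatives -/
lemma rep' {n : ℤ} {x y : E} (hy : D.V n y) (hx : D.L n x) :
    ∃ c ∈ K (E := E) (⊤ : Subgroup G), D.L 0 c ∧ D.L (n + 1) (x - c * y) := by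
  obtain ⟨c, h1, h2, h3⟩ := rep (D := D) (Fil.L_div hx hy (k := 0) (by omega))
  refine ⟨c, h1, h2, ?_⟩
  have : x - c * y = (x / y - c) * y := by field_simp [hy.ne]
  rw [this]
  exact Fil.mul h3 hy.1 (by omega)

lemma rep'_V {n : ℤ} {x y c : E} (hy : D.V n y) (hx : D.V n x) (hc : D.L 0 c)
    (h : D.L (n + 1) (x - c * y)) : D.V 0 c := by
  refine ⟨hc, fun h' => hx.2 ?_⟩
  have : x = (x - c * y) + c * y := by ring
  rw [this]
  exact D.add h (Fil.mul h' hy.1 (by omega))

/-- an element fixing the uniformiser is trivial -/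
lemma faith (D : Dat G E) (g : G) (h : g • D.π = D.π) : g = 1 := by
  apply D.fai
  have hzp : ∀ j : ℤ, g • D.π ^ j = D.π ^ j := by
    intro j
    have := map_zpow₀ (MulSemiringAction.toRingHom G E g) D.π j
    have h2 : (MulSemiringAction.toRingHom G E g) D.π = D.π := h
    rw [h2] at this
    exact this
  have key : ∀ (t : ℕ) (j : ℤ) (z : E), D.L j z → D.L (j + t) (g • z - z) := by
    intro t
    induction t with
    | zero =>
      intro j z hL
      exact D.mono (D.wild g hL) (by push_cast; omega)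
    | succ t ih =>
      intro j z hL
      have hϖj : D.V j (D.π ^ j) := by
        have := D.Vπ.zpow j
        rwa [mul_one] at this
      obtain ⟨c, hc, hc0, hc'⟩ := rep' hϖj hL
      have h1 := ih (j + 1) _ hc'
      have e : g • z - z = (g • (z - c * D.π ^ j) - (z - c * D.π ^ j)) := by
        rw [smul_sub, smul_mul', hc g trivial, hzp]
        ring
      rw [e]
      exact D.mono h1 (by push_cast; omega)
  intro z
  by_cases hz0 : z = 0
  · rw [hz0, smul_zero]
  obtain ⟨m, hm, -⟩ := Fil.exists_V (F := D.toFil) hz0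
  rw [← sub_eq_zero]
  apply D.sep
  intro k
  have h1 := key (k + m.natAbs) m z hm.1
  have h2 := neg_abs_le m
  exact D.mono h1 (by push_cast; omega)

/-- the norm of the uniformiser to the fixed field of a subgroup -/
lemma exists_unif (N : Subgroup G) : ∃ ϖ ∈ K (E := E) N, D.V (Nat.card N) ϖ := by
  have := Fintype.ofFinite N
  refine ⟨∏ g : N, (g : G) • D.π, ?_, ?_⟩
  · intro h hh
    rw [smul_finprod]
    refine Fintype.prod_equiv (Equiv.mulLeft (⟨h, hh⟩ : N)) _ _ fun g => ?_
    rw [Equiv.coe_mulLeft, Subgroup.coe_mul, mul_smul]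
  · have h1 := Fil.V_prod (F := D.toFil) Finset.univ (fun g : N => (g : G) • D.π) (fun _ => 1)
      (fun g _ => V_act _ D.Vπ)
    simpa using h1

end Dat

end Pool.Agent.Y784.SW
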