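import Pool.Agent.W90.Swan.Sw
import Pool.Agent.Y784.SW.Combine

/-! From a complete discrete valuation ring with a group action to the abstract data, and the Swan
inequality for such a ring, when the residue field is perfect and `x ^ 2 + x` is not surjective
on it. -/

open scoped BigOperators TensorProduct
open Representation IsLocalRing

set_option linter.unusedSectionVars false

noncomputable section

namespace Pool.Agent.Y784.SW

open Pool.Agent.W90.Swan

section act

variable {O : Type*} {E 𝒢 : Type*} [CommRing O] [IsDomain O] [IsDiscreteValuationRing O] [Field E]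
  [Algebra O E] [IsFractionRing O E] [Group 𝒢] [Finite 𝒢] [MulSemiringAction 𝒢 E]

section dat

variable (hst : ∀ (g : 𝒢) (x : O), ∃ y : O, algebraMap O E y = g • algebraMap O E x)
  {ϖ : O} (hϖ : Irreducible ϖ)

include hst hϖ

/-- the abstract data attached to the wild inertia group -/
def datOf (h2 : (2 : O) ∈ maximalIdeal O) (hsq : ∀ a : ResidueField O, ∃ w, w ^ 2 = a)
    (has : ∃ a : ResidueField O, ∀ x, x ^ 2 + x ≠ a)
    (hfai : ∀ g : 𝒢, (∀ x : E, g • x = x) → g = 1)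
    (hcpl : ∀ f : ℕ → O, (∀ n, f (n + 1) - f n ∈ maximalIdeal O ^ n) →
      ∃ x, ∀ n, x - f n ∈ maximalIdeal O ^ n) : Dat (rg hst hϖ 1) E where
  toFil := dvrFil E hϖ
  π := algebraMap O E ϖ
  hπ := by
    constructor
    · refine (dvrFil_L hϖ (n := 1)).mpr ?_
      rw [pow_one, hϖ.maximalIdeal_eq]
      exact Ideal.mem_span_singleton_self ϖ
    · intro h2
      have h3 : ϖ ∈ maximalIdeal O ^ 2 := (dvrFil_L (E := E) hϖ (n := 2)).mp h2
      obtain ⟨z, hz⟩ := (pow_irr hϖ).mp h3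
      have h4 : (1 : O) = ϖ * z := by
        apply mul_left_cancel₀ hϖ.ne_zero
        rw [mul_one]
        nth_rewrite 1 [hz]
        ring
      exact hϖ.not_isUnit (IsUnit.of_mul_eq_one z h4.symm)
  act g {n x} h := act_L hst hϖ (g : 𝒢) h
  wild g {n x} h := wild_L hst hϖ g.2 h
  fai g h := Subtype.ext (hfai g h)
  two := by
    have := (dvrFil_L (E := E) hϖ (n := 1) (x := 2)).mpr (by rwa [pow_one])
    rw [map_ofNat] at this
    exact this
  pg := rg_pgroup hst hϖ h2 hfai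
  sq := by
    intro u hu
    obtain ⟨y, rfl⟩ := (dvrFil_L0 hϖ).mp hu
    obtain ⟨w, hw⟩ := hsq (residue O y)
    obtain ⟨z, rfl⟩ := residue_surjective w
    refine ⟨algebraMap O E z, (dvrFil_L0 hϖ).mpr ⟨z, rfl⟩, ?_⟩
    rw [← map_pow, ← map_sub]
    refine (dvrFil_L hϖ (n := 1)).mpr ?_
    rw [pow_one, ← residue_eq_zero_iff, map_sub, map_pow, hw, sub_self]
  as1 := by
    obtain ⟨a, ha⟩ := has
    obtain ⟨b, rfl⟩ := residue_surjective a
    refine ⟨algebraMap O E b, (dvrFil_L0 hϖ).mpr ⟨b, rfl⟩, ?_⟩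
    intro x hx h
    obtain ⟨y, rfl⟩ := (dvrFil_L0 hϖ).mp hx
    rw [← map_pow, ← map_add, ← map_sub] at h
    have h3 := (dvrFil_L (E := E) hϖ (n := 1)).mp h
    rw [pow_one, ← residue_eq_zero_iff, map_sub, map_add, map_pow, sub_eq_zero] at h3
    exact ha _ h3
  cpl := by
    intro f hf
    have h0 : ∀ n : ℕ, (dvrFil E hϖ).L 0 (f n - f 0) := by
      intro n
      induction n with
      | zero => rw [sub_self]; exact (dvrFil E hϖ).zero _
      | succ n ih =>
        have e : f (n + 1) - f 0 = (f (n + 1) - f n) + (f n - f 0) := by ring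
        rw [e]
        exact (dvrFil E hϖ).add ((dvrFil E hϖ).mono (hf n) (by omega)) ih
    choose g hg using fun n => (dvrFil_L0 hϖ).mp (h0 n)
    obtain ⟨x, hx⟩ := hcpl g (fun n => by
      rw [← dvrFil_L (E := E) hϖ, map_sub, ← hg, ← hg]
      have e : f (n + 1) - f 0 - (f n - f 0) = f (n + 1) - f n := by ring
      rw [e]
      exact hf n)
    refine ⟨algebraMap O E x + f 0, fun n => ?_⟩
    have h1 := (dvrFil_L (E := E) hϖ).mpr (hx n)
    rw [map_sub, ← hg] at h1
    have e : algebraMap O E x + f 0 - f n = algebraMap O E x - (f n - f 0) := by ring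
    rw [e]
    exact h1

lemma mem_Ram_datOf (h2 : (2 : O) ∈ maximalIdeal O) (hsq : ∀ a : ResidueField O, ∃ w, w ^ 2 = a)
    (has : ∃ a : ResidueField O, ∀ x, x ^ 2 + x ≠ a)
    (hfai : ∀ g : 𝒢, (∀ x : E, g • x = x) → g = 1)
    (hcpl : ∀ f : ℕ → O, (∀ n, f (n + 1) - f n ∈ maximalIdeal O ^ n) →
      ∃ x, ∀ n, x - f n ∈ maximalIdeal O ^ n) (i : ℕ) (g : rg hst hϖ 1) :
    g ∈ Dat.Ram (datOf hst hϖ h2 hsq has hfai hcpl) i ↔ (g : 𝒢) ∈ rg hst hϖ i := by
  set D := datOf hst hϖ h2 hsq has hfai hcpl with hD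
  constructor
  · intro h x
    obtain ⟨c, hc, -, hc'⟩ := Dat.rep (D := D) ((dvrFil_L0 (E := E) hϖ).mpr ⟨x, rfl⟩)
    have h1 := h 1 _ hc'
    have e : g • (algebraMap O E x - c) - (algebraMap O E x - c) =
        g • algebraMap O E x - algebraMap O E x := by
      rw [smul_sub, hc g trivial]; ring
    rw [e] at h1
    refine (dvrFil_Ln hϖ).mp ?_
    exact D.mono h1 (by push_cast; omega)
  · intro h
    by_cases hg : g = 1
    · rw [hg]; exact Subgroup.one_mem _
    · rw [Dat.mem_Ram hg]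
      have h1 := (dvrFil_Ln (E := E) hϖ).mpr (h ϖ)
      have h2 := (Dat.e_V (D := D) hg).le h1
      push_cast at h2
      exact h2

end dat

/-- the Swan inequality for a complete discrete valuation ring with an action of a finite group -/
theorem swan_act (hst : ∀ (g : 𝒢) (x : O), ∃ y : O, algebraMap O E y = g • algebraMap O E x)
    (h2 : (2 : O) ∈ maximalIdeal O) (hsq : ∀ a : ResidueField O, ∃ w, w ^ 2 = a)
    (has : ∃ a : ResidueField O, ∀ x, x ^ 2 + x ≠ a)
    (hfai : ∀ g : 𝒢, (∀ x : E, g • x = x) → g = 1)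
    (hcpl : ∀ f : ℕ → O, (∀ n, f (n + 1) - f n ∈ maximalIdeal O ^ n) →
      ∃ x, ∀ n, x - f n ∈ maximalIdeal O ^ n)
    (R : ℕ → Subgroup 𝒢) (hR : ∀ i g, g ∈ R i ↔ InRam O (E := E) i g)
    {V : Type*} [AddCommGroup V] [Module ℂ V]
    [FiniteDimensional ℂ V] (ρ : Representation ℂ 𝒢 V) :
    swan R (symSqRep ρ) - swan R (altSqRep ρ) ≤ swan R ρ := by
  obtain ⟨ϖ, hϖ⟩ := IsDiscreteValuationRing.exists_irreducible O
  have hRrg : ∀ i, R i = rg hst hϖ i := by
    intro i
    ext g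
    rw [hR, mem_rg]
  set D := datOf hst hϖ h2 hsq has hfai hcpl with hD
  obtain ⟨M, hM⟩ := Dat.exists_Ram_bot D
  obtain ⟨r, hr, hFF⟩ := FF_nonneg D hM _ V (ρ.comp (rg hst hϖ 1).subtype) rfl
  have hmem : ∀ (i : ℕ) (g : rg hst hϖ 1), g ∈ Dat.Ram D i ↔ (g : 𝒢) ∈ rg hst hϖ i :=
    mem_Ram_datOf hst hϖ h2 hsq has hfai hcpl
  apply swan_red ρ R M ?_ r hr
  · rw [← hFF, FF]
    refine Finset.sum_congr rfl fun i hi => ?_
    rw [hRrg i]
    have hi1 : 1 ≤ i := (Finset.mem_Icc.mp hi).1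
    let eq : Dat.Ram D i ≃ rg hst hϖ i :=
      { toFun := fun x => ⟨((x : rg hst hϖ 1) : 𝒢), (hmem i x).mp x.2⟩
        invFun := fun x => ⟨⟨(x : 𝒢), InRam.mono hi1 x.2⟩, (hmem i _).mpr x.2⟩
        left_inv := fun x => rfl
        right_inv := fun x => rfl }
    congr 1
    · exact (finsum_comp_equiv eq (f := fun n : rg hst hϖ i => ρ.character ((n : 𝒢) ^ 2))).symm
    · exact (finsum_comp_equiv eq (f := fun n : rg hst hϖ i => ρ.character (n : 𝒢))).symm
  · intro i hi
    rw [hRrg, eq_bot_iff]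
    intro g hg
    have h1 : g ∈ rg hst hϖ 1 := InRam.mono (by omega) hg
    have h3 : (⟨g, h1⟩ : rg hst hϖ 1) ∈ Dat.Ram D M := by
      rw [hmem]
      exact InRam.mono hi.le hg
    rw [hM, Subgroup.mem_bot] at h3
    rw [Subgroup.mem_bot]
    exact congrArg Subtype.val h3

end act

end Pool.Agent.Y784.SW
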