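import Pool.Agent.Y784.SW.Arith4

/-! Cyclic towers: norms, Hilbert 90, and the jump inequality. -/

open scoped BigOperators

set_option linter.unusedSectionVars false

noncomputable section

namespace Pool.Agent.Y784.SW

open Pool.Agent.W90.Swan

namespace Dat

variable {G E : Type*} [Group G] [Finite G] [Field E] [MulSemiringAction G E] {D : Dat G E}

/-- a tower of subgroups with cyclic `2`-power quotient -/
structure Tow (B : ℕ → Subgroup G) (σ : G) (k : ℕ) : Prop where
  le : ∀ j < k, B (j + 1) ≤ B j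
  mem : σ ∈ B 0
  nmem : 0 < k → σ ∉ B 1
  cov : ∀ j < k, ∀ g ∈ B j, ∀ h ∈ B j, g ∉ B (j + 1) → h ∉ B (j + 1) → g⁻¹ * h ∈ B (j + 1)
  sqr : ∀ j, j + 1 < k → ∀ h ∈ B j, h ∉ B (j + 1) → h * h ∉ B (j + 2)
  nrm : ∀ j ≤ k, ∀ h ∈ B 0, ∀ g ∈ B j, h * g * h⁻¹ ∈ B j

namespace Tow

variable {B : ℕ → Subgroup G} {σ : G} {k : ℕ}

lemma sq_mem (T : Tow B σ (k + 1)) : σ * σ ∈ B 1 := by
  have := T.cov 0 (by omega) σ⁻¹ ((B 0).inv_mem T.mem) σ T.mem
    (fun h => T.nmem (by omega) (by simpa using (B 1).inv_mem h)) (T.nmem (by omega))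
  simpa using this

lemma shift (T : Tow B σ (k + 1)) : Tow (fun j => B (j + 1)) (σ * σ) k where
  le j hj := T.le (j + 1) (by omega)
  mem := T.sq_mem
  nmem hk := T.sqr 0 (by omega) σ T.mem (T.nmem (by omega))
  cov j hj := T.cov (j + 1) (by omega)
  sqr j hj := T.sqr (j + 1) (by omega)
  nrm j hj h hh := T.nrm (j + 1) (by omega) h (T.le 0 (by omega) hh)

lemma trunc (T : Tow B σ (k + 1)) : Tow B σ k where
  le j hj := T.le j (by omega)
  mem := T.mem
  nmem hk := T.nmem (by omega)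
  cov j hj := T.cov j (by omega)
  sqr j hj := T.sqr j (by omega)
  nrm j hj := T.nrm j (by omega)

lemma pr (T : Tow B σ (k + 1)) : Pr (B 1) (B 0) σ where
  le := T.le 0 (by omega)
  mem := T.mem
  nmem := T.nmem (by omega)
  nrm := T.nrm 1 (by omega)
  cov h hh hn := T.cov 0 (by omega) σ T.mem h hh (T.nmem (by omega)) hn

lemma mono (T : Tow B σ k) {i j : ℕ} (hij : i ≤ j) (hj : j ≤ k) : B j ≤ B i := by
  induction j with
  | zero =>
    obtain rfl : i = 0 := by omega
    exact le_rfl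
  | succ j ih =>
    rcases Nat.lt_or_ge i (j + 1) with h | h
    · exact (T.le j (by omega)).trans (ih (by omega) (by omega))
    · obtain rfl : i = j + 1 := by omega
      exact le_rfl

lemma last : ∀ {k : ℕ} {B : ℕ → Subgroup G} {σ : G}, Tow B σ (k + 1) →
    Pr (B (k + 1)) (B k) (σ ^ (2 ^ k)) := by
  intro k
  induction k with
  | zero =>
    intro B σ T
    simpa using T.pr
  | succ k ih =>
    intro B σ T
    have h := ih T.shift
    have e : (σ * σ) ^ (2 ^ k) = σ ^ (2 ^ (k + 1)) := by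
      rw [← pow_two, ← pow_mul, ← pow_succ']
    rw [e] at h
    exact h

lemma dvd_of_mem : ∀ {k : ℕ} {B : ℕ → Subgroup G} {σ : G}, Tow B σ k →
    ∀ i : ℕ, σ ^ i ∈ B k → 2 ^ k ∣ i := by
  intro k
  induction k with
  | zero =>
    intro B σ T i _
    simp
  | succ k ih =>
    intro B σ T i hi
    have h1 : σ ^ i ∈ B 1 := T.mono (by omega) le_rfl hi
    have hev : i % 2 = 0 := by
      by_contra hodd
      obtain ⟨c, hc⟩ : ∃ c, i = 2 * c + 1 := ⟨i / 2, by omega⟩
      apply T.nmem (by omega)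
      have e : σ ^ i = (σ * σ) ^ c * σ := by
        rw [hc, pow_succ, pow_mul, pow_two]
      have h2 : (σ * σ) ^ c ∈ B 1 := (B 1).pow_mem T.sq_mem c
      rw [e] at h1
      exact ((B 1).mul_mem_cancel_left h2).mp h1
    obtain ⟨c, hc⟩ : ∃ c, i = 2 * c := ⟨i / 2, by omega⟩
    have e : σ ^ i = (σ * σ) ^ c := by rw [hc, pow_mul, pow_two]
    rw [e] at hi
    have := ih T.shift c hi
    rw [hc, pow_succ']
    exact Nat.mul_dvd_mul_left 2 this

lemma act_mem (T : Tow B σ k) {j : ℕ} (hj : j ≤ k) {τ : G} (hτ : τ ∈ B 0) {x : E}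
    (hx : x ∈ K (E := E) (B j)) : τ • x ∈ K (E := E) (B j) := by
  intro n hn
  have : n * τ = τ * (τ⁻¹ * n * τ) := by group
  rw [← mul_smul, this, mul_smul, hx]
  have := T.nrm j hj τ⁻¹ ((B 0).inv_mem hτ) n hn
  simpa using this

end Tow

/-- the norm `∏_{i < 2^k} σ^i x` -/
def NN (k : ℕ) (σ : G) (x : E) : E := ∏ i ∈ Finset.range (2 ^ k), σ ^ i • x

lemma NN_zero (σ : G) (x : E) : NN 0 σ x = x := by simp [NN]

lemma prod_pairs (f : ℕ → E) (m : ℕ) :
    ∏ i ∈ Finset.range (2 * m), f i = ∏ j ∈ Finset.range m, (f (2 * j) * f (2 * j + 1)) := by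
  induction m with
  | zero => simp
  | succ m ih =>
    rw [show 2 * (m + 1) = 2 * m + 1 + 1 by ring, Finset.prod_range_succ, Finset.prod_range_succ,
      ih, Finset.prod_range_succ, mul_assoc]

lemma NN_succ (k : ℕ) (σ : G) (x : E) :
    NN (k + 1) σ x = NN k (σ * σ) x * σ • NN k (σ * σ) x := by
  rw [NN, pow_succ', prod_pairs, Finset.prod_mul_distrib, NN, smul_finprod]
  congr 1
  · refine Finset.prod_congr rfl fun j _ => ?_
    rw [pow_mul, pow_two]
  · refine Finset.prod_congr rfl fun j _ => ?_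
    rw [← mul_smul, pow_succ', pow_mul, pow_two]

lemma NN_succ' (k : ℕ) (σ : G) (x : E) :
    NN (k + 1) σ x = NN k σ x * σ ^ (2 ^ k) • NN k σ x := by
  rw [NN, pow_succ, mul_two, Finset.prod_range_add, NN, smul_finprod]
  congr 1
  refine Finset.prod_congr rfl fun j _ => ?_
  rw [← mul_smul, pow_add]

lemma NN_mul (k : ℕ) (σ : G) (x y : E) : NN k σ (x * y) = NN k σ x * NN k σ y := by
  rw [NN, NN, NN, ← Finset.prod_mul_distrib]
  refine Finset.prod_congr rfl fun j _ => ?_
  rw [smul_mul']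

lemma NN_inv (k : ℕ) (σ : G) (x : E) : NN k σ x⁻¹ = (NN k σ x)⁻¹ := by
  rw [NN, NN, ← Finset.prod_inv_distrib]
  refine Finset.prod_congr rfl fun j _ => ?_
  rw [smul_inv'']

lemma NN_smul_comm (k : ℕ) (σ : G) (j : ℕ) (x : E) :
    NN k σ (σ ^ j • x) = σ ^ j • NN k σ x := by
  rw [NN, NN, smul_finprod]
  refine Finset.prod_congr rfl fun i _ => ?_
  rw [← mul_smul, ← mul_smul, ← pow_add, ← pow_add, add_comm]

lemma NN_succ'' (k : ℕ) (σ : G) (x : E) :
    NN (k + 1) σ x = NN k σ (x * σ ^ (2 ^ k) • x) := by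
  rw [NN_succ', NN_mul, NN_smul_comm]

lemma NN_ne_zero (k : ℕ) (σ : G) {x : E} (hx : x ≠ 0) : NN k σ x ≠ 0 := by
  rw [NN, Finset.prod_ne_zero_iff]
  intro i _ h
  apply hx
  rw [← inv_smul_smul (σ ^ i) x, h, smul_zero]

lemma NN_mem : ∀ {k : ℕ} {B : ℕ → Subgroup G} {σ : G}, Tow B σ k → ∀ {x : E},
    x ∈ K (E := E) (B k) → NN k σ x ∈ K (E := E) (B 0) := by
  intro k
  induction k with
  | zero =>
    intro B σ T x hx
    rw [NN_zero]
    exact hx
  | succ k ih =>
    intro B σ T x hx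
    rw [NN_succ]
    exact T.pr.nm_mem (ih T.shift hx)

lemma NN_mem_top {k : ℕ} {B : ℕ → Subgroup G} {σ : G} (T : Tow B σ k) (m : ℕ) {x : E}
    (hx : x ∈ K (E := E) (B k)) : NN m σ x ∈ K (E := E) (B k) := by
  rw [NN]
  exact (K (B k)).prod_mem fun i _ => T.act_mem le_rfl ((B 0).pow_mem T.mem i) hx

/-- telescoping -/
lemma NN_tele (k : ℕ) (σ : G) {b : E} (hb : b ≠ 0) : NN k σ (σ • b / b) = σ ^ (2 ^ k) • b / b := by
  have key : ∀ m : ℕ, ∏ i ∈ Finset.range m, σ ^ i • (σ • b / b) = σ ^ m • b / b := by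
    intro m
    induction m with
    | zero =>
      simp [hb]
    | succ m ih =>
      rw [Finset.prod_range_succ, ih, div_eq_mul_inv (σ • b), smul_mul', smul_inv'', ← mul_smul,
        ← pow_succ]
      have : σ ^ m • b ≠ 0 := by
        intro h
        apply hb
        rw [← inv_smul_smul (σ ^ m) b, h, smul_zero]
      field_simp
  exact key _

/-- Hilbert 90, quadratic case -/
lemma h90_two (D : Dat G E) {N H : Subgroup G} {σ : G} (P : Pr N H σ) {z : E}
    (hz : z ∈ K (E := E) N) (h : z * σ • z = 1) :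
    ∃ b ∈ K (E := E) N, b ≠ 0 ∧ z * σ • b = b := by
  by_cases h1 : 1 + z = 0
  · obtain ⟨θ, hθ, hθ'⟩ := exists_moved P.nmem D
    refine ⟨θ - σ • θ, (K N).sub_mem hθ (P.act_mem hθ), ?_, ?_⟩
    · intro h0
      exact hθ' (sub_eq_zero.mp h0).symm
    · have hz1 : z = -1 := by
        rw [add_comm] at h1
        exact eq_neg_of_add_eq_zero_left h1
      rw [hz1, smul_sub, P.act_act hθ]
      ring
  · refine ⟨1 + z, (K N).add_mem (K N).one_mem hz, h1, ?_⟩
    rw [smul_add, smul_one, mul_add, mul_one, h, add_comm]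

/-- Hilbert 90 for a cyclic tower -/
lemma h90 (D : Dat G E) {k : ℕ} {B : ℕ → Subgroup G} {σ : G} (T : Tow B σ k) {u : E}
    (hu : u ∈ K (E := E) (B k)) (h : NN k σ u = 1) :
    ∃ b ∈ K (E := E) (B k), b ≠ 0 ∧ u * σ • b = b := by
  classical
  set m := 2 ^ k with hm
  have hmpos : 0 < m := by positivity
  let f : Fin m → (K (E := E) (B k) →* E) := fun i =>
    { toFun := fun x => σ ^ (i : ℕ) • (x : E)
      map_one' := by simp
      map_mul' := fun x y => by simp [smul_mul'] }
  have hfinj : Function.Injective f := by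
    have key : ∀ i j : Fin m, (i : ℕ) < j → f i ≠ f j := by
      intro i j hij he
      have h1 : σ ^ ((j : ℕ) - i) ∈ B k := by
        refine mem_of_fix (fun x hx => ?_) D
        have h2 : σ ^ (i : ℕ) • x = σ ^ (j : ℕ) • x := DFunLike.congr_fun he ⟨x, hx⟩
        have h3 : σ ^ (j : ℕ) = σ ^ (i : ℕ) * σ ^ ((j : ℕ) - i) := by
          rw [← pow_add]
          congr 1
          omega
        rw [h3, mul_smul] at h2
        exact ((MulAction.injective (σ ^ (i : ℕ))) h2).symm
      have h4 := T.dvd_of_mem _ h1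
      have h5 := Nat.le_of_dvd (by omega) h4
      have := j.2
      omega
    intro i j hij
    rcases lt_trichotomy (i : ℕ) j with h1 | h1 | h1
    · exact absurd hij (key i j h1)
    · exact Fin.ext h1
    · exact absurd hij.symm (key j i h1)
  have hli := (linearIndependent_monoidHom (K (E := E) (B k)) E).comp f hfinj
  rw [Fintype.linearIndependent_iff] at hli
  set c : ℕ → E := fun i => ∏ j ∈ Finset.range i, σ ^ j • u with hc
  have hc0 : c 0 = 1 := by simp [hc]
  have hcm : c m = 1 := h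
  have hcs : ∀ i, u * σ • c i = c (i + 1) := by
    intro i
    simp only [hc]
    rw [Finset.prod_range_succ', pow_zero, one_smul, smul_finprod, mul_comm]
    congr 1
    refine Finset.prod_congr rfl fun j _ => ?_
    rw [← mul_smul, pow_succ']
  have hcK : ∀ i, c i ∈ K (E := E) (B k) := fun i =>
    (K (B k)).prod_mem fun j _ => T.act_mem le_rfl ((B 0).pow_mem T.mem j) hu
  obtain ⟨θ, hθ⟩ : ∃ θ : K (E := E) (B k),
      ∑ i : Fin m, c i * σ ^ (i : ℕ) • (θ : E) ≠ 0 := by
    by_contra hcon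
    push Not at hcon
    have h6 := hli (fun i => c i) (by
      ext θ
      simp only [Finset.sum_apply, Pi.smul_apply, Function.comp_apply, smul_eq_mul, Pi.zero_apply]
      exact hcon θ) ⟨0, hmpos⟩
    rw [hc0] at h6
    exact one_ne_zero h6
  have hθm : σ ^ m • (θ : E) = θ := by
    have h7 : σ ^ m ∈ B k := by
      cases k with
      | zero => simpa [hm] using T.mem
      | succ k =>
        have := T.last.fix2
        rw [← pow_add, ← two_mul, ← pow_succ'] at this
        exact this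
    exact θ.2 _ h7
  rw [Fin.sum_univ_eq_sum_range (fun i => c i * σ ^ i • (θ : E)) m] at hθ
  refine ⟨∑ i ∈ Finset.range m, c i * σ ^ i • (θ : E), ?_, hθ, ?_⟩
  · exact (K (B k)).sum_mem fun i _ => (K (B k)).mul_mem (hcK i)
      (T.act_mem le_rfl ((B 0).pow_mem T.mem i) θ.2)
  · rw [Finset.smul_sum, Finset.mul_sum]
    have h8 : ∀ i, u * σ • (c i * σ ^ i • (θ : E)) = c (i + 1) * σ ^ (i + 1) • (θ : E) := by
      intro i
      rw [smul_mul', ← mul_assoc, hcs, ← mul_smul, pow_succ']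
    simp only [h8]
    have h9 := Finset.sum_range_succ' (fun i => c i * σ ^ i • (θ : E)) m
    have h10 := Finset.sum_range_succ (fun i => c i * σ ^ i • (θ : E)) m
    rw [h9] at h10
    simp only [hc0, hcm, hθm, pow_zero, one_smul] at h10
    exact add_right_cancel h10

/-- Lemma 1: if the square of `a` is a norm from the top then `a` is a norm from one step below -/
lemma sq_norm (D : Dat G E) {k : ℕ} {B : ℕ → Subgroup G} {σ : G} (T : Tow B σ (k + 1)) {a : E}
    (ha : a ∈ K (E := E) (B 0)) (ha0 : a ≠ 0) {x : E} (hx : x ∈ K (E := E) (B (k + 1)))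
    (h : NN (k + 1) σ x = a * a) : ∃ w ∈ K (E := E) (B k), NN k σ w = a := by
  have P := T.last
  set τ := σ ^ (2 ^ k) with hτ
  have hτ0 : τ ∈ B 0 := (B 0).pow_mem T.mem _
  have hx0 : x ≠ 0 := by
    rintro rfl
    apply mul_ne_zero ha0 ha0
    rw [← h, NN]
    refine Finset.prod_eq_zero (i := 0) (Finset.mem_range.mpr (by positivity)) ?_
    simp
  set y := NN k σ x with hy
  have hyK : y ∈ K (E := E) (B (k + 1)) := NN_mem_top T k hx
  have haK : a ∈ K (E := E) (B (k + 1)) := K_anti (T.mono (by omega) le_rfl) ha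
  have hyτ : y * τ • y = a * a := by rw [hy, hτ, ← NN_succ', h]
  have hz : (y / a) * τ • (y / a) = 1 := by
    rw [div_eq_mul_inv, smul_mul', smul_inv'', ha τ hτ0]
    calc y * a⁻¹ * (τ • y * a⁻¹) = (y * τ • y) * (a * a)⁻¹ := by rw [mul_inv]; ring
      _ = 1 := by rw [hyτ, mul_inv_cancel₀ (mul_ne_zero ha0 ha0)]
  obtain ⟨b, hb, hb0, hb'⟩ := h90_two D P ((K _).div_mem hyK haK) hz
  have hσb : σ • b ∈ K (E := E) (B (k + 1)) := T.act_mem le_rfl T.mem hb
  set w := x * (σ • b / b) with hw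
  have hwK : w ∈ K (E := E) (B (k + 1)) := (K _).mul_mem hx ((K _).div_mem hσb hb)
  have hwa : NN k σ w = a := by
    rw [hw, NN_mul, NN_tele k σ hb0, ← hy, ← hτ]
    have : y * τ • b = a * b := by
      have := congrArg (fun t => a * t) hb'
      rw [← this]
      field_simp
    rw [← mul_div_assoc, this, mul_div_assoc, div_self hb0, mul_one]
  have hw0 : w ≠ 0 := by
    intro h0
    apply ha0
    rw [← hwa, h0, NN]
    refine Finset.prod_eq_zero (i := 0) (Finset.mem_range.mpr (by positivity)) ?_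
    simp
  have hwτ : τ • w = w := by
    have h1 : σ • a = a := ha σ T.mem
    have h2 : σ • NN k σ w = NN k σ w * (τ • w / w) := by
      have h3 := NN_tele k σ hw0
      rw [← hτ] at h3
      rw [← h3, ← NN_mul, mul_div_cancel₀ _ hw0]
      have := NN_smul_comm k σ 1 w
      rw [pow_one] at this
      exact this.symm
    rw [hwa, h1] at h2
    have h4 : τ • w / w = 1 := by
      apply mul_left_cancel₀ ha0
      rw [← h2, mul_one]
    exact (div_eq_one_iff_eq hw0).mp h4
  exact ⟨w, P.mem_of hwK hwτ, hwa⟩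

end Dat

end Pool.Agent.Y784.SW
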